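import Mathlib
import Pool.Agent.H469R10.HO.Stmts6

/-!
# Error terms of Selberg class functions (MP_dafbe7_nt, MP_2a1a00_nt): definitions and tasks
-/

set_option autoImplicit false

open Finset

namespace Pool.Agent.H13R3.EM

open Pool.Agent.H469R10.HO

/-- the parameter `2 m + 3/2`; the degree is `2 lam = 4 m + 3` -/
noncomputable def lamH (m : ℕ) : ℝ := 2 * m + 3 / 2

/-- summatory function of `a` (from `n = 1`) -/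
noncomputable def EE (a : ℕ → ℝ) (x : ℝ) : ℝ := ∑ n ∈ Icc 1 ⌊x⌋₊, a n

/-- Dirichlet convolution -/
noncomputable def cv (g a : ℕ → ℝ) (n : ℕ) : ℝ := ∑ x ∈ n.divisorsAntidiagonal, g x.1 * a x.2

/-- the boundary function -/
noncomputable def hb (c lam : ℝ) (α : ℕ → ℝ) (x : ℝ) : ℝ := ∑' n, α n * Real.cos (uu c lam n * x)

/-- TASK EM-A: if the mean square of the summatory function is small, the boundary function is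
smooth at `1` (second differences `O(t^2)`). -/
def TaskA : Prop := ∀ (c lam σ κ : ℝ) (α : ℕ → ℝ), 0 < c → 1 ≤ lam → 0 < σ → 0 ≤ κ → κ + 3 / lam < σ →
  Summable (fun n => |α n|) →
  (∃ C : ℝ, ∀ T : ℝ, 1 ≤ T → ∫ x in (1:ℝ)..T, (EE (fun n => α n * (n : ℝ) ^ σ) x) ^ 2 ≤ C * T ^ (1 + 2 * κ)) →
  ∃ C : ℝ, ∀ t : ℝ, 0 < t → t ≤ 1 / 2 →
    |hb c lam α (1 + t) + hb c lam α (1 - t) - 2 * hb c lam α 1| ≤ C * t ^ 2

/-- TASK EM-B: the correlation of `EE a` and `EE (cv g a)` is as large as the mean square of `EE a`. -/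
def TaskB : Prop := ∀ (κ : ℝ) (a g : ℕ → ℝ), 0 ≤ κ → g 1 = 1 → Summable (fun k : ℕ => |g k| * (k : ℝ) ^ (-κ)) →
  ∑' k : ℕ, (if 2 ≤ k then |g k| * (k : ℝ) ^ (-κ) else 0) ≤ 1 / 4 →
  (∀ C : ℝ, ∃ T : ℝ, 1 ≤ T ∧ C * T ^ (1 + 2 * κ) < ∫ x in (1:ℝ)..T, (EE a x) ^ 2) →
  ∀ C : ℝ, ∃ T : ℝ, 1 ≤ T ∧ C * T ^ (1 + 2 * κ) < ∫ x in (1:ℝ)..T, EE a x * EE (cv g a) x

/-- membership of the Dirichlet series with coefficients `a` in the Selberg class, with all data: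
`G s = (s - 1) ^ m0 F s`, gamma factors `lam`, `μ`, conductor `Q`, root number `ω`,
coefficients `b` of `log F`. -/
structure Sel where
  a : ℕ → ℂ
  m0 : ℕ
  G : ℂ → ℂ
  r : ℕ
  Q : ℝ
  lam : Fin r → ℝ
  μ : Fin r → ℂ
  ω : ℂ
  b : ℕ → ℂ
  one : a 1 = 1
  ram : ∀ ε : ℝ, 0 < ε → ∃ C : ℝ, ∀ n : ℕ, 1 ≤ n → ‖a n‖ ≤ C * (n : ℝ) ^ ε
  diff : Differentiable ℂ G
  order : ∃ ρ C : ℝ, ∀ s : ℂ, ‖G s‖ ≤ C * Real.exp (‖s‖ ^ ρ)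
  cont : ∀ s : ℂ, 1 < s.re → G s = (s - 1) ^ m0 * LSeries a s
  Qpos : 0 < Q
  lampos : ∀ j, 0 < lam j
  mu_re : ∀ j, 0 ≤ (μ j).re
  norm_omega : ‖ω‖ = 1
  fe : ∀ s : ℂ, s ≠ 0 → s ≠ 1 →
      (∀ j, ∀ n : ℕ, (lam j : ℂ) * s + μ j ≠ -(n : ℂ)) →
      (∀ j, ∀ n : ℕ, (lam j : ℂ) * (1 - starRingEnd ℂ s) + μ j ≠ -(n : ℂ)) →
      (Q : ℂ) ^ s * (∏ j, Complex.Gamma ((lam j : ℂ) * s + μ j)) * (G s / (s - 1) ^ m0)
        = ω * starRingEnd ℂ ((Q : ℂ) ^ (1 - starRingEnd ℂ s) *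
            (∏ j, Complex.Gamma ((lam j : ℂ) * (1 - starRingEnd ℂ s) + μ j)) *
            (G (1 - starRingEnd ℂ s) / (1 - starRingEnd ℂ s - 1) ^ m0))
  b_zero : ∀ n : ℕ, ¬ IsPrimePow n → b n = 0
  b_bound : ∃ θ : ℝ, θ < 1 / 2 ∧ ∃ C : ℝ, ∀ n : ℕ, 1 ≤ n → ‖b n‖ ≤ C * (n : ℝ) ^ θ
  euler : ∀ s : ℂ, 1 < s.re → LSeriesSummable b s ∧ LSeries a s = Complex.exp (LSeries b s)

/-- degree -/
noncomputable def Sel.deg (F : Sel) : ℝ := 2 * ∑ j, F.lam j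

/-- residue at `s = 1` of `F(s) x^s / s` -/
noncomputable def Sel.res (F : Sel) (x : ℝ) : ℂ :=
  if F.m0 = 0 then 0 else
    iteratedDeriv (F.m0 - 1) (fun s : ℂ => F.G s * (x : ℂ) ^ s / s) 1 / ((F.m0 - 1).factorial : ℂ)

/-- the error term `E_f(x)` -/
noncomputable def Sel.err (F : Sel) (x : ℝ) : ℂ := ∑ n ∈ Icc 1 ⌊x⌋₊, F.a n - F.res x

/-- TASK EM-C: products of two entire elements. -/
def TaskC : Prop := ∀ F₁ F₂ : Sel, F₁.m0 = 0 → F₂.m0 = 0 → ∃ F : Sel, F.m0 = 0 ∧ F.deg = F₁.deg + F₂.deg ∧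
  ∀ n : ℕ, 1 ≤ n → F.a n = ∑ x ∈ n.divisorsAntidiagonal, F₁.a x.1 * F₂.a x.2

end Pool.Agent.H13R3.EM
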