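import Mathlib
import Pool.Agent.H13R3.EM.Defs
import Pool.Agent.H13R3.TaskPZN
import Pool.Agent.H13R3.TaskPZO

/-!
# The rough symmetric source
-/

set_option autoImplicit false

open Finset MeasureTheory Filter

namespace Pool.Agent.H13R3.EM

open Pool.Agent.H469R10.HO Pool.Agent.H5R3.T469N

/-- cutoff in the variable `log x` -/
noncomputable def psi (y : ℝ) : ℝ := Real.smoothTransition (2 - 100 * y ^ 2)

/-- `psi y |y|^(3/2)` -/
noncomputable def gs (y : ℝ) : ℝ := psi y * ‖y‖ ^ (3 / 2 : ℝ)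

/-- the source -/
noncomputable def rs (m : ℕ) (A x : ℝ) : ℝ := A * (x ^ m * gs (Real.log x))

lemma psi_nonneg (y : ℝ) : 0 ≤ psi y := Real.smoothTransition.nonneg _

lemma psi_zero {y : ℝ} (hy : 1 / 4 ≤ |y|) : psi y = 0 := by
  apply Real.smoothTransition.zero_of_nonpos
  have h : (1 / 4 : ℝ) ^ 2 ≤ |y| ^ 2 := pow_le_pow_left₀ (by norm_num) hy 2
  rw [sq_abs] at h
  linarith

lemma psi_one {y : ℝ} (hy : |y| ≤ 1 / 10) : psi y = 1 := by
  apply Real.smoothTransition.one_of_one_le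
  have h : |y| ^ 2 ≤ (1 / 10 : ℝ) ^ 2 := pow_le_pow_left₀ (abs_nonneg _) hy 2
  rw [sq_abs] at h
  linarith

lemma psi_neg (y : ℝ) : psi (-y) = psi y := by unfold psi; rw [neg_sq]

lemma gs_neg (y : ℝ) : gs (-y) = gs y := by unfold gs; rw [psi_neg, norm_neg]

lemma gs_nonneg (y : ℝ) : 0 ≤ gs y := mul_nonneg (psi_nonneg y) (by positivity)

lemma psi_contDiff : ContDiff ℝ 1 psi := by
  unfold psi
  exact Real.smoothTransition.contDiff.comp (by fun_prop)

lemma gs_contDiff : ContDiff ℝ 1 gs := by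
  unfold gs
  exact psi_contDiff.mul (contDiff_norm_rpow (by norm_num))

lemma gs_zero {y : ℝ} (hy : 1 / 4 ≤ |y|) : gs y = 0 := by unfold gs; rw [psi_zero hy, zero_mul]

lemma gs_supp : HasCompactSupport gs := by
  apply HasCompactSupport.intro (isCompact_Icc (a := (-(1 / 4) : ℝ)) (b := 1 / 4))
  intro y hy
  apply gs_zero
  rw [Set.mem_Icc, not_and_or, not_le, not_le] at hy
  rcases hy with h | h
  · rw [abs_of_neg (by linarith)]; linarith
  · rw [abs_of_pos (by linarith)]; linarith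

lemma gs_hasDeriv (y : ℝ) : HasDerivAt gs (deriv gs y) y :=
  (gs_contDiff.differentiable (by norm_num)).differentiableAt.hasDerivAt

lemma gs_deriv_cont : Continuous (deriv gs) := gs_contDiff.continuous_deriv (by norm_num)

lemma gs_bound : ∃ M : ℝ, ∀ y, |gs y| ≤ M := by
  obtain ⟨M, hM⟩ := gs_contDiff.continuous.bounded_above_of_compact_support gs_supp
  exact ⟨M, fun y => hM y⟩

lemma gs_deriv_bound : ∃ M : ℝ, ∀ y, |deriv gs y| ≤ M := by
  obtain ⟨M, hM⟩ := gs_deriv_cont.bounded_above_of_compact_support gs_supp.deriv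
  exact ⟨M, fun y => hM y⟩

lemma rs_cont {m : ℕ} (hm : 1 ≤ m) (A : ℝ) : Continuous (rs m A) := by
  obtain ⟨M, hM⟩ := gs_bound
  exact continuous_const.mul (PZN.cont_log gs_contDiff.continuous hM hm)

lemma log43 : 1 / 4 ≤ Real.log (4 / 3) := by
  have := Real.one_sub_inv_le_log_of_pos (show (0:ℝ) < 4 / 3 by norm_num)
  norm_num at this
  linarith

lemma rs_low {m : ℕ} (hm : 1 ≤ m) (A : ℝ) {x : ℝ} (hx0 : 0 ≤ x) (hx : x ≤ 3 / 4) : rs m A x = 0 := by
  rcases hx0.eq_or_lt with h | h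
  · subst h
    unfold rs
    rw [zero_pow (by omega)]; ring
  · unfold rs
    rw [gs_zero, mul_zero, mul_zero]
    have h1 : Real.log x ≤ - Real.log (4 / 3) := by
      rw [← Real.log_inv]
      apply Real.log_le_log h
      norm_num; linarith
    have := log43
    rw [abs_of_nonpos (by linarith)]
    linarith

lemma rs_high {m : ℕ} (A : ℝ) {x : ℝ} (hx : 4 / 3 ≤ x) : rs m A x = 0 := by
  unfold rs
  rw [gs_zero, mul_zero, mul_zero]
  have h1 : Real.log (4 / 3) ≤ Real.log x := Real.log_le_log (by norm_num) hx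
  have := log43
  rw [abs_of_nonneg (by linarith)]
  linarith

lemma rs_symm {m : ℕ} (A : ℝ) {x : ℝ} (hx : 0 < x) : rs m A x = x ^ (2 * m) * rs m A x⁻¹ := by
  unfold rs
  rw [Real.log_inv, gs_neg]
  have : x ^ (2 * m) * x⁻¹ ^ m = x ^ m := by
    rw [two_mul, pow_add, mul_assoc, ← mul_pow, mul_inv_cancel₀ hx.ne', one_pow, mul_one]
  linear_combination (-A * gs (Real.log x)) * this

lemma PP_rs (m : ℕ) (A : ℝ) (j : ℕ) : PP (rs m A) j = A * PP (rs m 1) j := by
  unfold PP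
  have : ∀ x, rs m A x * Real.cos (xx j * x) = A * (rs m 1 x * Real.cos (xx j * x)) := fun x => by
    unfold rs; ring
  simp_rw [this]
  rw [intervalIntegral.integral_const_mul, mul_div_assoc]

/-- size of the source -/
theorem rs_size (m : ℕ) (hm : 2 ≤ m) : ∃ K : ℝ, 0 < K ∧ ∀ c : ℝ, 0 < c → c ≤ 1 → ∀ (A : ℝ) (J : ℕ),
    ∑ j ∈ range J, WW c j * (PP (rs m A) j) ^ 2 ≤ K * A ^ 2 / c := by
  obtain ⟨M, hM⟩ := gs_bound
  obtain ⟨M', hM'⟩ := gs_deriv_bound
  set f' : ℝ → ℝ := fun x => m * (x ^ (m - 1) * gs (Real.log x)) + x ^ (m - 1) * deriv gs (Real.log x) with hf'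
  have hd : ∀ x, HasDerivAt (rs m 1) (f' x) x := fun x => by
    have : rs m 1 = fun x => x ^ m * gs (Real.log x) := by
      funext x; unfold rs; ring
    rw [this]
    exact PZN.hasDeriv_log gs_hasDeriv hM hm x
  have hf'c : Continuous f' := (continuous_const.mul (PZN.cont_log gs_contDiff.continuous hM (by omega))).add
    (PZN.cont_log gs_deriv_cont hM' (by omega))
  have hfc : Continuous (rs m 1) := continuous_iff_continuousAt.2 fun x => (hd x).continuousAt
  obtain ⟨A0, hA⟩ := (isCompact_Icc (a := (0:ℝ)) (b := 2)).exists_bound_of_continuousOn hfc.continuousOn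
  obtain ⟨A', hA'⟩ := (isCompact_Icc (a := (0:ℝ)) (b := 2)).exists_bound_of_continuousOn hf'c.continuousOn
  set Q : ℝ := 4 * A0 ^ 2 + 4 * A' ^ 2 with hQ
  have hQ0 : 0 ≤ Q := by positivity
  refine ⟨256 * (Q + 1), by positivity, ?_⟩
  intro c hc hc1 A J
  have g := weighted_bessel hd hf'c (M := A0) (M' := A') hA hA' (range J)
  calc ∑ j ∈ range J, WW c j * (PP (rs m A) j) ^ 2 ≤
      ∑ j ∈ range J, 256 / c * A ^ 2 * ((1 + (j:ℝ)) ^ 2 * (PP (rs m 1) j) ^ 2) := by
        apply sum_le_sum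
        intro j _
        rw [PP_rs, mul_pow]
        calc WW c j * (A ^ 2 * PP (rs m 1) j ^ 2) ≤ (256 / c * (1 + (j:ℝ)) ^ 2) * (A ^ 2 * PP (rs m 1) j ^ 2) :=
              mul_le_mul_of_nonneg_right (WW_le hc hc1 j) (by positivity)
          _ = _ := by ring
    _ = 256 / c * A ^ 2 * ∑ j ∈ range J, (1 + (j:ℝ)) ^ 2 * (PP (rs m 1) j) ^ 2 := by rw [mul_sum]
    _ ≤ 256 / c * A ^ 2 * Q := by gcongr
    _ ≤ 256 / c * A ^ 2 * (Q + 1) := by
        have : 0 ≤ 256 / c * A ^ 2 := by positivity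
        nlinarith
    _ = 256 * (Q + 1) * A ^ 2 / c := by ring

/-- the source is rough at `1` -/
theorem rs_rough (m : ℕ) {A t : ℝ} (hA : 0 < A) (ht0 : 0 < t) (ht : t ≤ 1 / 20) :
    A * (t / 2) ^ (3 / 2 : ℝ) ≤ rs m A (1 + t) + rs m A (1 - t) - 2 * rs m A 1 := by
  have h1 : rs m A 1 = 0 := by
    unfold rs gs
    rw [Real.log_one, norm_zero, Real.zero_rpow (by norm_num)]; ring
  have h2 : 0 ≤ rs m A (1 - t) := by
    unfold rs
    have : 0 ≤ 1 - t := by linarith
    have := gs_nonneg (Real.log (1 - t))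
    positivity
  have hlog1 : Real.log (1 + t) ≤ t := by
    have := Real.log_le_sub_one_of_pos (show 0 < 1 + t by linarith)
    linarith
  have hlog2 : t / 2 ≤ Real.log (1 + t) := by
    have := Real.one_sub_inv_le_log_of_pos (show 0 < 1 + t by linarith)
    have h3 : t / 2 ≤ 1 - (1 + t)⁻¹ := by
      rw [show 1 - (1 + t)⁻¹ = t / (1 + t) by field_simp; ring, div_le_div_iff₀ (by norm_num) (by linarith)]
      nlinarith
    linarith
  have h3 : A * (t / 2) ^ (3 / 2 : ℝ) ≤ rs m A (1 + t) := by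
    unfold rs gs
    rw [psi_one (by rw [abs_of_nonneg (by linarith)]; linarith), one_mul, Real.norm_of_nonneg (by linarith)]
    apply mul_le_mul_of_nonneg_left _ hA.le
    have h4 : (t / 2) ^ (3 / 2 : ℝ) ≤ Real.log (1 + t) ^ (3 / 2 : ℝ) :=
      Real.rpow_le_rpow (by linarith) hlog2 (by norm_num)
    have h5 : 1 ≤ (1 + t) ^ m := one_le_pow₀ (by linarith)
    have h6 : 0 ≤ (t / 2) ^ (3 / 2 : ℝ) := by positivity
    nlinarith
  rw [h1]
  linarith

end Pool.Agent.H13R3.EM
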