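import Mathlib
import Pool.Agent.H13R3.EM.Rel
import Pool.Agent.H469R10.HO.Final

set_option autoImplicit false

/-!
Core with the rough source, for `lam = 2 m + 3/2`.
-/

open Finset MeasureTheory

namespace Pool.Agent.H13R3.EM

open Pool.Agent.H469R10.HO

/-- size of the prime coefficients for `lam = 2 m + 3/2` (copy of helper180's task P) -/
theorem primeH : ∀ (m : ℕ), 1 ≤ m → ∀ η : ℝ, 0 < η → ∃ c₀ : ℝ, 0 < c₀ ∧ ∀ c : ℝ, 0 < c → c ≤ c₀ →
  ∀ (B : ℕ → Finset ℕ), (∀ j, ∀ p ∈ B j, 1 ≤ j ∧ p.Prime ∧ |uu c (lamH m) p - xx j| ≤ 1 / 2) →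
    (∀ j, 1 ≤ j → (B j).Nonempty ∧ ∀ p ∈ B j, η * p ≤ (B j).card * xx j * Real.log p) →
  ∀ b : ℕ → ℝ, (∀ j, WW c j * b j ^ 2 ≤ 1) → ∀ p : ℕ, p.Prime →
    |bet c (lamH m) B b p| ≤ (p : ℝ) ^ (-(1 / 2 + m / lamH m)) := by
  intro m hm η hη
  set lam : ℝ := lamH m with hlam_def
  have hm1 : (1:ℝ) ≤ m := by exact_mod_cast hm
  have hlam : lam = 2 * m + 3 / 2 := by rw [hlam_def, lamH]
  have hlam3 : 3 ≤ lam := by rw [hlam]; linarith
  have hlam0 : 0 < lam := by linarith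
  refine ⟨min (1 / 3) ((η / (14 * lam)) ^ 2), by positivity, ?_⟩
  intro c hc hc0 B hB1 hB2 b hb p hp
  have hc3 : c ≤ 1 / 3 := hc0.trans (min_le_left _ _)
  have hcη : c ≤ (η / (14 * lam)) ^ 2 := hc0.trans (min_le_right _ _)
  have hp0 : (0:ℝ) < p := by exact_mod_cast hp.pos
  have hRHS : 0 ≤ (p : ℝ) ^ (-(1 / 2 + m / lam)) := by positivity
  rw [bet]
  split_ifs with hmem
  swap
  · rw [abs_zero]; exact hRHS
  set j := jj c lam p with hj_def
  obtain ⟨hj1, -, hux⟩ := hB1 j p hmem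
  obtain ⟨-, hBall⟩ := hB2 j hj1
  have hcard := hBall p hmem
  have hcard0 : 0 < (B j).card := card_pos.2 ⟨p, hmem⟩
  have hcard0' : (0:ℝ) < (B j).card := by exact_mod_cast hcard0
  have hj1' : (1:ℝ) ≤ j := by exact_mod_cast hj1
  -- weight
  have hlog : 1 ≤ Real.log ((1 + j) / c) := by
    rw [Real.le_log_iff_exp_le (by positivity)]
    have := Real.exp_one_lt_d9
    rw [le_div_iff₀ hc]
    nlinarith
  have hW : (1 + (j:ℝ)) * b j ^ 2 ≤ 1 := by
    refine le_trans ?_ (hb j)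
    rw [WW]
    have h4 : 1 ≤ Real.log ((1 + j) / c) ^ 4 := one_le_pow₀ hlog
    have h5 : 0 ≤ (1 + (j:ℝ)) * b j ^ 2 := by positivity
    nlinarith
  set r : ℝ := Real.sqrt (1 + j) with hr
  have hr0 : 0 < r := Real.sqrt_pos.2 (by positivity)
  have hr2 : r ^ 2 = 1 + j := Real.sq_sqrt (by positivity)
  have hbr : |b j| * r ≤ 1 := by
    have : (|b j| * r) ^ 2 ≤ 1 ^ 2 := by
      rw [mul_pow, sq_abs, hr2]; linarith
    exact le_of_sq_le_sq this (by norm_num)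
  -- position
  set u : ℝ := uu c lam p with hu_def
  have hπ := Real.pi_gt_three
  have hπ4 := Real.pi_lt_d2
  have hxx : xx j = Real.pi / 2 * j := rfl
  have hux' := abs_le.1 hux
  have hu1 : 1 ≤ u := by
    have : Real.pi / 2 * 1 ≤ xx j := by rw [hxx]; exact mul_le_mul_of_nonneg_left hj1' (by positivity)
    linarith [hux'.1]
  have h2u : 1 + (j:ℝ) ≤ 2 * u := by
    have h1 : Real.pi / 2 * j ≤ 3 / 2 * u := by rw [← hxx]; linarith [hux'.1]
    have h2 : 3 / 2 * (j:ℝ) ≤ 3 / 2 * u := by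
      have : 3 / 2 * (j:ℝ) ≤ Real.pi / 2 * j := mul_le_mul_of_nonneg_right (by linarith) (by positivity)
      linarith
    linarith
  have hru : r ≤ Real.sqrt 2 * Real.sqrt u := by
    rw [← Real.sqrt_mul (by norm_num), hr]
    exact Real.sqrt_le_sqrt h2u
  have hsu : Real.sqrt u = Real.sqrt c * (p:ℝ) ^ (1 / (2 * lam)) := by
    rw [hu_def, uu, Real.sqrt_mul hc.le, Real.sqrt_eq_rpow ((p:ℝ) ^ (1 / lam)), ← Real.rpow_mul hp0.le]
    congr 2
    field_simp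
  have hsc : Real.sqrt c ≤ η / (14 * lam) := by
    rw [Real.sqrt_le_left (by positivity)]
    exact hcη
  have hs2 : Real.sqrt 2 ≤ 1.42 := by
    rw [Real.sqrt_le_left (by norm_num)]; norm_num
  -- logarithm
  have hlp : Real.log p ≤ 4 * lam * (p:ℝ) ^ (1 / (4 * lam)) := by
    have := Real.log_le_rpow_div hp0.le (ε := 1 / (4 * lam)) (by positivity)
    calc Real.log p ≤ (p:ℝ) ^ (1 / (4 * lam)) / (1 / (4 * lam)) := this
      _ = _ := by field_simp
  have hlp0 : 0 ≤ Real.log p := Real.log_natCast_nonneg p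
  -- the main chain
  have h1 : |b j / (B j).card| * (η * p) ≤ (Real.pi / 2) * r * Real.log p := by
    rw [abs_div, abs_of_pos hcard0', div_mul_eq_mul_div, div_le_iff₀ hcard0']
    have hxr : |b j| * xx j ≤ Real.pi / 2 * r := by
      have e1 : |b j| * xx j ≤ |b j| * (Real.pi / 2 * (1 + j)) := by
        rw [hxx]
        refine mul_le_mul_of_nonneg_left (mul_le_mul_of_nonneg_left (by linarith) (by positivity)) (abs_nonneg _)
      have e2 : |b j| * (Real.pi / 2 * (1 + j)) = (|b j| * r) * (Real.pi / 2 * r) := by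
        rw [← hr2]; ring
      have e3 : (|b j| * r) * (Real.pi / 2 * r) ≤ 1 * (Real.pi / 2 * r) :=
        mul_le_mul_of_nonneg_right hbr (by positivity)
      linarith
    calc |b j| * (η * p) ≤ |b j| * ((B j).card * xx j * Real.log p) :=
          mul_le_mul_of_nonneg_left hcard (abs_nonneg _)
      _ = (|b j| * xx j) * (Real.log p * (B j).card) := by ring
      _ ≤ (Real.pi / 2 * r) * (Real.log p * (B j).card) :=
          mul_le_mul_of_nonneg_right hxr (by positivity)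
      _ = _ := by ring
  have h2 : (Real.pi / 2) * r * Real.log p ≤
      (η * ((p:ℝ) ^ (1 / (2 * lam)) * (p:ℝ) ^ (1 / (4 * lam)))) := by
    set P2 : ℝ := (p:ℝ) ^ (1 / (2 * lam)) with hP2
    set P6 : ℝ := (p:ℝ) ^ (1 / (4 * lam)) with hP6
    have hP20 : 0 < P2 := by positivity
    have hP60 : 0 < P6 := by positivity
    have e1 : r ≤ 1.42 * (η / (14 * lam) * P2) := by
      refine hru.trans ?_
      rw [hsu]
      exact mul_le_mul hs2 (mul_le_mul_of_nonneg_right hsc hP20.le) (by positivity) (by norm_num)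
    calc (Real.pi / 2) * r * Real.log p
        ≤ (3.15 / 2) * (1.42 * (η / (14 * lam) * P2)) * (4 * lam * P6) := by
          apply mul_le_mul _ hlp hlp0 (by positivity)
          exact mul_le_mul (by linarith) e1 hr0.le (by norm_num)
      _ = (3.15 / 2 * 1.42 * 4 / 14) * (η * (P2 * P6)) := by field_simp
      _ ≤ 1 * (η * (P2 * P6)) := mul_le_mul_of_nonneg_right (by norm_num) (by positivity)
      _ = _ := one_mul _
  have h3 : |b j / (B j).card| * (η * p) ≤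
      (p : ℝ) ^ (-(1 / 2 + m / lam)) * (η * p) := by
    refine (h1.trans h2).trans (le_of_eq ?_)
    have e : (p : ℝ) ^ (-(1 / 2 + m / lam)) * (η * p) =
        η * ((p : ℝ) ^ (-(1 / 2 + m / lam)) * (p:ℝ) ^ (1:ℝ)) := by
      rw [Real.rpow_one]; ring
    rw [e, ← Real.rpow_add hp0, ← Real.rpow_add hp0]
    congr 2
    rw [hlam]
    field_simp
    ring
  exact le_of_mul_le_mul_right h3 (by positivity)


/-- smallness of the coefficients -/
theorem sum_alp_le {c lam e κ CJ CH : ℝ} {B : ℕ → Finset ℕ} {m : ℕ} (h : Hyp c lam e κ CJ CH B m)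
    {b : ℕ → ℝ} {ρ : ℝ} (hρ0 : 0 < ρ) (hρ : 9 * ρ ^ 2 ≤ 1)
    (hb : ∀ J : ℕ, ∑ j ∈ range J, WW c j * b j ^ 2 ≤ ρ ^ 2) (S : Finset ℕ) :
    ∑ n ∈ S, (if 2 ≤ n then |alp c lam B b n| else 0) ≤ ρ * (11 + 9 * CH) := by
  have hz : ∀ J : ℕ, ∑ j ∈ range J, WW c j * (fun _ : ℕ => (0:ℝ)) j ^ 2 ≤ ρ ^ 2 := by
    intro J; simp; positivity
  have hd : ∀ J : ℕ, ∑ j ∈ range J, WW c j * (b j - (fun _ : ℕ => (0:ℝ)) j) ^ 2 ≤ ρ ^ 2 := by
    intro J; simpa using hb J
  have g1 := h.QQ_gg hd S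
  have g2 := h.QQ_hh (τ := 1) one_pos hρ0.le (by rw [one_mul]) hρ hb hz hd S
  rw [one_pow, one_mul] at g2
  have s1 := h.sum_abs_le S (Hyp.gg c lam B b (fun _ => 0))
  have s2 := h.sum_abs_le S (Hyp.hh c lam B b (fun _ => 0))
  have hCH := h.hCH
  have t1 : ∑ n ∈ S, |Hyp.gg c lam B b (fun _ => 0) n| ≤ 2 * ρ := by
    apply le_of_sq_le_sq _ (by positivity)
    nlinarith
  have t2 : ∑ n ∈ S, |Hyp.hh c lam B b (fun _ => 0) n| ≤ 9 * (1 + CH) * ρ ^ 2 := by
    apply le_of_sq_le_sq _ (by positivity)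
    calc (∑ n ∈ S, |Hyp.hh c lam B b (fun _ => 0) n|) ^ 2 ≤ 2 * (CH * (9 * ρ ^ 2) ^ 2) := by linarith
      _ = (2 * CH) * (9 * ρ ^ 2) ^ 2 := by ring
      _ ≤ (1 + CH) ^ 2 * (9 * ρ ^ 2) ^ 2 := by
          apply mul_le_mul_of_nonneg_right _ (by positivity)
          nlinarith [sq_nonneg (1 - CH)]
      _ = (9 * (1 + CH) * ρ ^ 2) ^ 2 := by ring
  calc ∑ n ∈ S, (if 2 ≤ n then |alp c lam B b n| else 0)
      ≤ ∑ n ∈ S, (|Hyp.gg c lam B b (fun _ => 0) n| + |Hyp.hh c lam B b (fun _ => 0) n|) := by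
        apply sum_le_sum
        intro n _
        split_ifs with h2
        · have := h.abs_alp_le b n
          rw [if_neg (by omega), add_zero] at this
          exact this
        · positivity
    _ = ∑ n ∈ S, |Hyp.gg c lam B b (fun _ => 0) n| + ∑ n ∈ S, |Hyp.hh c lam B b (fun _ => 0) n| := sum_add_distrib
    _ ≤ 2 * ρ + 9 * (1 + CH) * ρ ^ 2 := add_le_add t1 t2
    _ ≤ ρ * (11 + 9 * CH) := by
        have hρ1 : ρ ≤ 1 := by nlinarith [sq_nonneg ρ]
        have : 9 * (1 + CH) * ρ ^ 2 ≤ 9 * (1 + CH) * ρ := by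
          apply mul_le_mul_of_nonneg_left _ (by positivity)
          nlinarith
        nlinarith

/-- the output of the machine -/
structure Out (m : ℕ) (ε c A : ℝ) (β α : ℕ → ℝ) : Prop where
  hc : 0 < c
  hA : 0 < A
  hβ : ∀ p : ℕ, p.Prime → |β p| ≤ (p : ℝ) ^ (-(1 / 2 + m / lamH m))
  hα : ∀ n : ℕ, 1 ≤ n → α n = if Squarefree n then ∏ p ∈ n.primeFactors, β p else 0
  hsum : Summable (fun n => |α n|)
  hrel : ∀ x : ℝ, 0 < x → ∑' n, α n * Real.cos (uu c (lamH m) n * x) =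
      x ^ (2 * m) * ∑' n, α n * Real.cos (uu c (lamH m) n / x)
  hsmall : ∑' n, (if 2 ≤ n then |α n| else 0) ≤ ε
  hr : ∀ x : ℝ, 3 / 4 ≤ x → x ≤ 4 / 3 → hb c (lamH m) α x = rs m A x

theorem core_rough : ∃ m₀ : ℕ, 2 ≤ m₀ ∧ ∀ m : ℕ, m₀ ≤ m → ∀ ε : ℝ, 0 < ε →
    ∃ (c A : ℝ) (β α : ℕ → ℝ), Out m ε c A β α := by
  obtain ⟨m₁, lam₀, hlam8, hH⟩ := exists_hyp Pool.Agent.H469R10.HO.hoheisel
  refine ⟨max (max m₁ 2) ⌈lam₀⌉₊, (le_max_right _ _).trans (le_max_left _ _), fun m hm ε hε => ?_⟩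
  have hm1 : m₁ ≤ m := ((le_max_left _ _).trans (le_max_left _ _)).trans hm
  have hm2 : 2 ≤ m := ((le_max_right _ _).trans (le_max_left _ _)).trans hm
  have hm3 : lam₀ ≤ m := Nat.ceil_le.mp ((le_max_right _ _).trans hm)
  have hmR : (2:ℝ) ≤ m := by exact_mod_cast hm2
  have hlam : lam₀ ≤ lamH m := by unfold lamH; linarith
  obtain ⟨e, κ, CJ, CH, η, ρ0, c₁, he0, he, hη, hρ00, hρ90, hfin0, hc₁, hyp⟩ := hH m hm1 (lamH m) hlam
  -- sign of the constants
  obtain ⟨B1, h1, -⟩ := hyp c₁ hc₁ le_rfl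
  have hCJ := h1.hCJ
  have hCH := h1.hCH
  have hκ := h1.hκ
  set ρ : ℝ := min ρ0 (ε / (11 + 9 * CH)) with hρdef
  have hρ0 : 0 < ρ := lt_min hρ00 (by positivity)
  have hρρ0 : ρ ≤ ρ0 := min_le_left _ _
  have hρε : ρ * (11 + 9 * CH) ≤ ε := by
    have : ρ ≤ ε / (11 + 9 * CH) := min_le_right _ _
    rwa [le_div_iff₀ (by positivity)] at this
  have hρsq : ρ ^ 2 ≤ ρ0 ^ 2 := pow_le_pow_left₀ hρ0.le hρρ0 2
  have hρ9 : 9 * ρ ^ 2 ≤ 1 := by linarith
  have hfin : 2 * (CJ * (800 * e ^ 2 + 2 * κ)) + 2 * (CJ * (720 + 2 * κ)) * (CH * 81 * ρ ^ 2) ≤ 1 / 4 := by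
    have h3 : 2 * (CJ * (720 + 2 * κ)) * (CH * 81 * ρ ^ 2) ≤ 2 * (CJ * (720 + 2 * κ)) * (CH * 81 * ρ0 ^ 2) := by
      gcongr
    linarith
  obtain ⟨cN, hcN, hN⟩ := Pool.Agent.H5R3.T469N.taskN m hm2 (ρ ^ 2 / 16) (by positivity)
  obtain ⟨cP, hcP, hP⟩ := primeH m (by omega) η hη
  obtain ⟨K, hK0, hK⟩ := rs_size m hm2
  set c : ℝ := min (min c₁ 1) (min (min cN cP) (ρ ^ 2 / (16 * K))) with hcdef
  have hc : 0 < c := lt_min (lt_min hc₁ one_pos) (lt_min (lt_min hcN hcP) (by positivity))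
  have hcc₁ : c ≤ c₁ := (min_le_left _ _).trans (min_le_left _ _)
  have hcc1 : c ≤ 1 := (min_le_left _ _).trans (min_le_right _ _)
  have hccN : c ≤ cN := (min_le_right _ _).trans ((min_le_left _ _).trans (min_le_left _ _))
  have hccP : c ≤ cP := (min_le_right _ _).trans ((min_le_left _ _).trans (min_le_right _ _))
  have hccK : c * K ≤ ρ ^ 2 / 16 := by
    have : c ≤ ρ ^ 2 / (16 * K) := (min_le_right _ _).trans (min_le_right _ _)
    rw [le_div_iff₀ (by positivity)] at this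
    linarith
  obtain ⟨B, h, hB2⟩ := hyp c hc hcc₁
  have hW := fun j => (WW_pos h.hc h.hc1 j).le
  have hs : ∀ J : ℕ, ∑ j ∈ range J, WW c j * (ss c m j + PP (rs m c) j) ^ 2 ≤ (ρ / 2) ^ 2 := by
    intro J
    have e1 := hN c hc hccN J
    have e2 := hK c hc hcc1 c J
    have e3 : K * c ^ 2 / c ≤ ρ ^ 2 / 16 := by
      rw [show K * c ^ 2 / c = c * K by field_simp]
      exact hccK
    calc ∑ j ∈ range J, WW c j * (ss c m j + PP (rs m c) j) ^ 2
        ≤ ∑ j ∈ range J, (2 * (WW c j * ss c m j ^ 2) + 2 * (WW c j * (PP (rs m c) j) ^ 2)) := by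
          apply sum_le_sum
          intro j _
          have := mul_nonneg (hW j) (sq_nonneg (ss c m j - PP (rs m c) j))
          nlinarith
      _ = 2 * ∑ j ∈ range J, WW c j * ss c m j ^ 2 + 2 * ∑ j ∈ range J, WW c j * (PP (rs m c) j) ^ 2 := by
          rw [sum_add_distrib, mul_sum, mul_sum]
      _ ≤ 2 * (ρ ^ 2 / 16) + 2 * (ρ ^ 2 / 16) := by linarith
      _ = (ρ / 2) ^ 2 := by ring
  obtain ⟨b, hb1, hb2, hb3⟩ := h.fixed Pool.Agent.H180R3.Q469.taskQ hρ0 hρ9 hfin _ hs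
  have hBh : ∀ j, ∀ p ∈ B j, 1 ≤ j ∧ p.Prime ∧ |uu c (lamH m) p - xx j| ≤ 1 / 2 :=
    fun j p hp => ⟨(h.hB j p hp).1, (h.hB j p hp).2.1, (h.hB j p hp).2.2.trans he⟩
  set α : ℕ → ℝ := fun n => if n = 0 then b 0 - 1 else
    if Squarefree n then ∏ p ∈ n.primeFactors, bet c (lamH m) B b p else 0 with hαdef
  obtain ⟨hrel, hr⟩ := rel_of_fixed c (lamH m) m B b (rs m c) hc h.hlam hm2 (rs_cont (by omega) c)
    (fun x h0 h1 => rs_low (by omega) c h0 h1) (fun x h1 => rs_high c h1) (fun x hx => rs_symm c hx)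
    hBh h.hBne hb2 hb3 α (fun n => rfl)
  have hαalp : ∀ n, n ≠ 0 → α n = alp c (lamH m) B b n := by
    intro n hn
    simp only [hαdef, alp, if_neg hn]
  have hsum : Summable fun n => |α n| := by
    refine hb2.congr_cofinite ?_
    rw [Filter.EventuallyEq, Filter.eventually_cofinite]
    refine (Set.finite_singleton 0).subset ?_
    intro n hn
    by_contra h0
    apply hn
    have h0' : n ≠ 0 := h0
    simp only [hαalp n h0']
  refine ⟨c, c, bet c (lamH m) B b, α, ⟨hc, hc, ?_, ?_, hsum, hrel, ?_, hr⟩⟩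
  · intro p hp
    refine hP c hc hccP B hBh hB2 b (fun j => ?_) p hp
    have h1 := hb1 (j + 1)
    rw [Finset.sum_range_succ] at h1
    have h2 : 0 ≤ ∑ i ∈ range j, WW c i * b i ^ 2 :=
      Finset.sum_nonneg fun i _ => mul_nonneg (hW i) (sq_nonneg _)
    have h3 : ρ ^ 2 ≤ 1 := by nlinarith [sq_nonneg ρ]
    linarith
  · intro n hn
    simp only [hαdef, if_neg (show n ≠ 0 by omega)]
  · have hs2 : Summable fun n => (if 2 ≤ n then |α n| else 0) :=
      Summable.of_nonneg_of_le (fun n => by split_ifs <;> positivity)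
        (fun n => by split_ifs <;> simp) hsum
    refine (hasSum_le_of_sum_le hs2.hasSum fun S => ?_).trans hρε
    have := sum_alp_le h hρ0 hρ9 hb1 S
    refine le_trans (le_of_eq ?_) this
    apply sum_congr rfl
    intro n _
    split_ifs with h2
    · rw [hαalp n (by omega)]
    · rfl

end Pool.Agent.H13R3.EM
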