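import Mathlib
import Pool.Agent.H13R3.EM.Defs

/-!
# Twisted moments (MP_2a1a00_nt): further tasks
-/

set_option autoImplicit false

open Finset

namespace Pool.Agent.H13R3.EM

/-- TASK EM-P (peaks; stronger form of EM-B): there are arbitrarily large `T` at which the mean square
`I(T) = ∫_1^T (EE a)^2` dominates all smaller ones, with consequences for
`J(x) = ∫_1^x EE a * EE (cv g a)`. -/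
def TaskP : Prop := ∀ (κ : ℝ) (a g : ℕ → ℝ), 0 ≤ κ → g 1 = 1 → Summable (fun k : ℕ => |g k| * (k : ℝ) ^ (-κ)) →
  ∑' k : ℕ, (if 2 ≤ k then |g k| * (k : ℝ) ^ (-κ) else 0) ≤ 1 / 4 →
  (∀ C : ℝ, ∃ T : ℝ, 1 ≤ T ∧ C * T ^ (1 + 2 * κ) < ∫ x in (1:ℝ)..T, (EE a x) ^ 2) →
  ∀ C T₀ : ℝ, ∃ T : ℝ, 1 ≤ T ∧ T₀ ≤ T ∧ C * T ^ (1 + 2 * κ) < (∫ x in (1:ℝ)..T, (EE a x) ^ 2) ∧
    3 / 4 * (∫ x in (1:ℝ)..T, (EE a x) ^ 2) ≤ ∫ x in (1:ℝ)..T, EE a x * EE (cv g a) x ∧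
    ∀ y : ℝ, 1 ≤ y → y ≤ T → |∫ x in (1:ℝ)..y, EE a x * EE (cv g a) x| ≤
      5 / 4 * (y / T) ^ (1 + 2 * κ) * ∫ x in (1:ℝ)..T, (EE a x) ^ 2

/-- TASK EM-D (twist by a weight with a mean value). -/
def TaskD : Prop := ∀ (κ η : ℝ) (a g : ℕ → ℝ) (w : ℝ → ℝ) (P : Polynomial ℝ), 0 ≤ κ → 0 < η → 3 - η < 1 + 2 * κ →
  g 1 = 1 → Summable (fun k : ℕ => |g k| * (k : ℝ) ^ (-κ)) →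
  ∑' k : ℕ, (if 2 ≤ k then |g k| * (k : ℝ) ^ (-κ) else 0) ≤ 1 / 4 →
  (∀ ε : ℝ, 0 < ε → ∃ C : ℝ, ∀ n : ℕ, 1 ≤ n → |a n| ≤ C * (n : ℝ) ^ ε) →
  (∀ ε : ℝ, 0 < ε → ∃ C : ℝ, ∀ n : ℕ, 1 ≤ n → |cv g a n| ≤ C * (n : ℝ) ^ ε) →
  (∀ x, 0 ≤ w x) → (∀ T : ℝ, 1 ≤ T → IntervalIntegrable w MeasureTheory.volume 1 T) → P ≠ 0 →
  (∃ C : ℝ, ∀ T : ℝ, 1 ≤ T → |(∫ x in (1:ℝ)..T, w x) - T * P.eval (Real.log T)| ≤ C * T ^ (1 - η)) →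
  (∀ C : ℝ, ∃ T : ℝ, 1 ≤ T ∧ C * T ^ (1 + 2 * κ) < ∫ x in (1:ℝ)..T, (EE a x) ^ 2) →
  ∀ C : ℝ, ∃ T : ℝ, 1 ≤ T ∧ C * T ^ (1 + 2 * κ) < ∫ x in (1:ℝ)..T, EE a x * EE (cv g a) x * w x

end Pool.Agent.H13R3.EM
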