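import Mathlib
import Pool.Agent.H13R3.EM.Wrap
import Pool.Agent.H886R3.TaskEMC

set_option autoImplicit false

/-!
# Assembly
-/

namespace Pool.Agent.H13R3.EM

open Finset Pool.Agent.H469R10.HO

theorem EE_congr {a a' : ℕ → ℝ} (h : ∀ n, 1 ≤ n → a n = a' n) (x : ℝ) : EE a x = EE a' x := by
  unfold EE
  exact sum_congr rfl fun n hn => h n (mem_Icc.1 hn).1

theorem kap_eq (m : ℕ) : kap m = 1 - 3 / (4 * lamH m) := by
  have h := (lam_pos m).ne'
  unfold kap
  have h2 : (m : ℝ) = (lamH m - 3 / 2) / 2 := by unfold lamH; ring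
  rw [h2]
  field_simp
  ring

/-- the error term of an entire element with real coefficients -/
theorem err_eq {F : Sel} (h0 : F.m0 = 0) {a : ℕ → ℝ} (ha : ∀ n, 1 ≤ n → F.a n = ((a n : ℝ) : ℂ)) (x : ℝ) :
    F.err x = ((EE a x : ℝ) : ℂ) := by
  unfold Sel.err Sel.res EE
  rw [if_pos h0, sub_zero]
  push_cast
  exact sum_congr rfl fun n hn => ha n (mem_Icc.1 hn).1

/-- a rough boundary function forces a huge mean square -/
theorem big_of_rough (hA : TaskA) {m : ℕ} {e c A : ℝ} {β α : ℕ → ℝ} (hO : Out m e c A β α) {κ : ℝ}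
    (hκ0 : 0 ≤ κ) (hκ : κ + 3 / lamH m < kap m) :
    ∀ C : ℝ, ∃ T : ℝ, 1 ≤ T ∧ C * T ^ (1 + 2 * κ) < ∫ x in (1:ℝ)..T, (EE (fr m β) x) ^ 2 := by
  intro C
  by_contra hcon
  push Not at hcon
  have hkap : 0 < kap m := by
    have := lam_pos m
    unfold kap
    positivity
  have hE : ∀ x, EE (fun n => α n * (n : ℝ) ^ kap m) x = EE (fr m β) x := fun x =>
    EE_congr (fun n hn => (fr_eq hO.hα hn).symm) x
  obtain ⟨C', hC'⟩ := hA c (lamH m) (kap m) κ α hO.hc (by linarith [lam_ge m]) hkap hκ0 hκ hO.hsum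
    ⟨C, fun T hT => by
      simp_rw [hE]
      exact hcon T hT⟩
  have hAp := hO.hA
  -- second differences
  have key : ∀ s : ℝ, 0 < s → s ≤ 1 / 5 → A * (s ^ 3 / 4) ≤ |C'| * s ^ 4 := by
    intro s hs0 hs1
    have hs2 : s ^ 2 ≤ 1 / 25 := by nlinarith
    have ht0 : 0 < s ^ 2 := by positivity
    have h1 := hC' (s ^ 2) ht0 (by linarith)
    rw [hO.hr (1 + s ^ 2) (by linarith) (by linarith), hO.hr (1 - s ^ 2) (by linarith) (by linarith),
      hO.hr 1 (by norm_num) (by norm_num)] at h1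
    have h2 := rs_rough m hAp ht0 (by linarith)
    have h3 : s ^ 3 / 4 ≤ (s ^ 2 / 2) ^ (3 / 2 : ℝ) := by
      have e1 : (s ^ 2 / 4) ^ (3 / 2 : ℝ) = s ^ 3 / 8 := by
        rw [show s ^ 2 / 4 = (s / 2) ^ (2 : ℝ) by rw [Real.rpow_two]; ring, ← Real.rpow_mul (by positivity)]
        norm_num
        ring
      have e2 : (s ^ 2 / 2) ^ (3 / 2 : ℝ) = (2 : ℝ) ^ (3 / 2 : ℝ) * (s ^ 2 / 4) ^ (3 / 2 : ℝ) := by
        rw [← Real.mul_rpow (by norm_num) (by positivity)]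
        congr 1
        ring
      have e3 : (2 : ℝ) ≤ (2 : ℝ) ^ (3 / 2 : ℝ) := by
        calc (2 : ℝ) = (2 : ℝ) ^ (1 : ℝ) := (Real.rpow_one _).symm
          _ ≤ _ := Real.rpow_le_rpow_of_exponent_le (by norm_num) (by norm_num)
      rw [e2, e1]
      have : 0 < s ^ 3 / 8 := by positivity
      nlinarith
    calc A * (s ^ 3 / 4) ≤ A * (s ^ 2 / 2) ^ (3 / 2 : ℝ) := mul_le_mul_of_nonneg_left h3 hAp.le
      _ ≤ _ := h2
      _ ≤ |_| := le_abs_self _
      _ ≤ C' * (s ^ 2) ^ 2 := h1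
      _ ≤ |C'| * s ^ 4 := by
          rw [← pow_mul]
          exact mul_le_mul_of_nonneg_right (le_abs_self _) (by positivity)
  have hs := key (min (1 / 5) (A / (8 * (|C'| + 1)))) (by positivity) (min_le_left _ _)
  set s := min (1 / 5) (A / (8 * (|C'| + 1))) with hsdef
  have hs0 : 0 < s := by rw [hsdef]; positivity
  have hs1 : s * (8 * (|C'| + 1)) ≤ A := by
    have : s ≤ A / (8 * (|C'| + 1)) := min_le_right _ _
    rwa [le_div_iff₀ (by positivity)] at this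
  have h4 : A / 4 ≤ |C'| * s := by
    have h5 : s ^ 3 * (A / 4) ≤ s ^ 3 * (|C'| * s) := by nlinarith
    exact le_of_mul_le_mul_left h5 (by positivity)
  have h6 : 0 ≤ |C'| := abs_nonneg _
  nlinarith

/-- **Main construction**: for every `θ < 3` there are two entire elements with real coefficients, of integer degrees
`d₁ < d₂`, such that the correlation of the two error terms is not `O(T ^ θ)`. -/
theorem strong_of (hA : TaskA) (hB : TaskB) (θ : ℝ) (hθ : θ < 3) :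
    ∃ (F₁ F₂ : Sel) (a₁ a₂ : ℕ → ℝ) (d₁ d₂ : ℕ), 2 ≤ d₁ ∧ d₁ < d₂ ∧ F₁.deg = d₁ ∧ F₂.deg = d₂ ∧
      F₁.m0 = 0 ∧ F₂.m0 = 0 ∧ (∀ n, 1 ≤ n → F₁.a n = ((a₁ n : ℝ) : ℂ)) ∧ (∀ n, 1 ≤ n → F₂.a n = ((a₂ n : ℝ) : ℂ)) ∧
      ∀ C : ℝ, ∃ T : ℝ, 1 ≤ T ∧ C * T ^ θ < ∫ x in (1:ℝ)..T, EE a₁ x * EE a₂ x := by
  obtain ⟨m₀, hm₀, hcore⟩ := core_rough
  set m' : ℕ := max m₀ ⌈3 / (3 - θ)⌉₊ with hm'
  set m : ℕ := 5 * m' + 10 with hm
  have hm'0 : m₀ ≤ m' := le_max_left _ _
  have hm'1 : 3 / (3 - θ) ≤ m' := (Nat.le_ceil _).trans (by exact_mod_cast le_max_right _ _)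
  have hmm0 : m₀ ≤ m := by omega
  obtain ⟨c, A, β, α, hO⟩ := hcore m hmm0 1 one_pos
  obtain ⟨c', A', β', α', hO'⟩ := hcore m' hm'0 (1 / 4) (by norm_num)
  obtain ⟨F₁, h10, h1d, h1a⟩ := toSel (by omega) hO
  obtain ⟨F', h20, h2d, h2a⟩ := toSel (by omega) hO'
  obtain ⟨F₂, h30, h3d, h3a⟩ := Pool.Agent.H886R3.EMC.taskC F' F₁ h20 h10
  have hl' := lam_pos m'
  have hl := lam_pos m
  have hlm : lamH m = 5 * lamH m' + 14 := by
    rw [hm]
    unfold lamH
    push_cast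
    ring
  have hk' := kap_eq m'
  have hk := kap_eq m
  have hkap0 : 0 < kap m' := by unfold kap; positivity
  have hkap2 : 1 / 2 ≤ kap m' := by
    unfold kap
    have : 0 ≤ (m' : ℝ) / lamH m' := by positivity
    linarith
  have hκ : kap m' + 3 / lamH m < kap m := by
    rw [hk', hk]
    have e1 : 3 / lamH m + 3 / (4 * lamH m) = 15 / 4 / lamH m := by field_simp; ring
    have e2 : 3 / (4 * lamH m') = 3 / 4 / lamH m' := by field_simp
    have e3 : 15 / 4 / lamH m < 3 / 4 / lamH m' := by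
      rw [div_lt_div_iff₀ hl hl', hlm]
      nlinarith
    linarith
  have hθκ : θ ≤ 1 + 2 * kap m' := by
    rw [hk']
    have hpos : 0 < 3 - θ := by linarith
    rw [div_le_iff₀ hpos] at hm'1
    have hlm' : (m' : ℝ) ≤ lamH m' := by
      unfold lamH
      have : (0:ℝ) ≤ m' := Nat.cast_nonneg _
      linarith
    have e1 : 3 / (4 * lamH m') ≤ (3 - θ) / 4 := by
      rw [div_le_div_iff₀ (by positivity) (by norm_num)]
      nlinarith
    linarith
  -- smallness of `G`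
  have hfr : ∀ k : ℕ, |fr m' β' k| * (k : ℝ) ^ (-kap m') = if k = 0 then 0 else |α' k| := by
    intro k
    by_cases hk0 : k = 0
    · subst hk0
      rw [if_pos rfl, fr_zero, abs_zero, zero_mul]
    · rw [if_neg hk0, fr_eq hO'.hα (by omega), abs_mul]
      have hkp : (0:ℝ) < k := by exact_mod_cast (by omega : 0 < k)
      rw [abs_of_pos (Real.rpow_pos_of_pos hkp _), mul_assoc, ← Real.rpow_add hkp]
      simp
  have hgs : Summable (fun k : ℕ => |fr m' β' k| * (k : ℝ) ^ (-kap m')) := by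
    simp_rw [hfr]
    exact Summable.of_nonneg_of_le (fun n => by split_ifs <;> positivity)
      (fun n => by split_ifs <;> simp) hO'.hsum
  have hgt : ∑' k : ℕ, (if 2 ≤ k then |fr m' β' k| * (k : ℝ) ^ (-kap m') else 0) ≤ 1 / 4 := by
    refine le_trans (le_of_eq (tsum_congr fun k => ?_)) hO'.hsmall
    rw [hfr]
    split_ifs <;> first | rfl | omega
  have hbig := big_of_rough hA hO hkap0.le hκ
  have hcor := hB (kap m') (fr m β) (fr m' β') hkap0.le fr_one hgs hgt hbig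
  refine ⟨F₁, F₂, fr m β, cv (fr m' β') (fr m β), 4 * m + 3, (4 * m' + 3) + (4 * m + 3), by omega, by omega, h1d, ?_,
    h10, h30, fun n _ => h1a n, fun n hn => ?_, fun C => ?_⟩
  · rw [h3d, h1d, h2d]
    push_cast
    ring
  · rw [h3a n hn]
    unfold cv
    push_cast
    exact sum_congr rfl fun x _ => by rw [h2a, h1a]
  · obtain ⟨T, hT, hTC⟩ := hcor |C|
    refine ⟨T, hT, lt_of_le_of_lt ?_ hTC⟩
    have h1 : T ^ θ ≤ T ^ (1 + 2 * kap m') := Real.rpow_le_rpow_of_exponent_le hT hθκ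
    have h2 : 0 ≤ T ^ θ := by positivity
    calc C * T ^ θ ≤ |C| * T ^ θ := mul_le_mul_of_nonneg_right (le_abs_self _) h2
      _ ≤ |C| * T ^ (1 + 2 * kap m') := mul_le_mul_of_nonneg_left h1 (abs_nonneg _)

end Pool.Agent.H13R3.EM
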