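import Mathlib
import Pool.Agent.H13R3.EM.Fin

set_option autoImplicit false

/-!
# Negation of Q1 of MP_dafbe7_nt from tasks A and B
-/

namespace Pool.Agent.H13R3.EM

open Finset

/-- exponent `σ = ∑ ℓ_j (d_j - 1) / (2 d_j)` -/
noncomputable def sig {k : ℕ} (d ℓ : Fin k → ℕ) : ℝ := ∑ j, (ℓ j : ℝ) * ((d j : ℝ) - 1) / (2 * (d j : ℝ))

/-- Q1 of MP_dafbe7_nt, as posed. -/
def HybridQ1 : Prop := ∀ (k : ℕ) (d ℓ : Fin k → ℕ) (F : Fin k → Sel), 2 ≤ k → StrictMono d → (∀ j, 2 ≤ d j) →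
  (∀ j, (F j).deg = (d j : ℝ)) → (∀ j, 1 ≤ ℓ j) → (∃ j, ℓ j = 1) →
  ∃ δ : ℝ, 0 < δ ∧ ∀ ε : ℝ, 0 < ε → ∃ C : ℝ, ∀ T : ℝ, 1 ≤ T →
    ‖∫ x in (1:ℝ)..T, ∏ j, (F j).err x ^ ℓ j‖ ≤ C * T ^ (1 + sig d ℓ - δ + ε)

theorem sig_lt {d₁ d₂ : ℕ} (h1 : 2 ≤ d₁) (h2 : 2 ≤ d₂) : sig ![d₁, d₂] ![1, 1] < 1 := by
  unfold sig
  rw [Fin.sum_univ_two]
  simp only [Matrix.cons_val_zero, Matrix.cons_val_one, Nat.cast_one, one_mul]
  have e1 : (2:ℝ) ≤ d₁ := by exact_mod_cast h1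
  have e2 : (2:ℝ) ≤ d₂ := by exact_mod_cast h2
  have e3 : ((d₁ : ℝ) - 1) / (2 * d₁) < 1 / 2 := by
    rw [div_lt_div_iff₀ (by positivity) (by norm_num)]
    linarith
  have e4 : ((d₂ : ℝ) - 1) / (2 * d₂) < 1 / 2 := by
    rw [div_lt_div_iff₀ (by positivity) (by norm_num)]
    linarith
  linarith

theorem not_hybridQ1 (hA : TaskA) (hB : TaskB) : ¬ HybridQ1 := by
  intro h
  obtain ⟨F₁, F₂, a₁, a₂, d₁, d₂, hd1, hd12, hF1, hF2, h10, h20, ha1, ha2, hbig⟩ := strong_of hA hB 2 (by norm_num)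
  obtain ⟨δ, hδ, hε⟩ := h 2 ![d₁, d₂] ![1, 1] ![F₁, F₂] le_rfl
    (by
      intro i j hij
      fin_cases i <;> fin_cases j
      · exact absurd hij (lt_irrefl _)
      · exact hd12
      · exact absurd hij (by decide)
      · exact absurd hij (lt_irrefl _))
    (by intro j; fin_cases j; exacts [hd1, by simp; omega])
    (by intro j; fin_cases j; exacts [hF1, hF2])
    (by intro j; fin_cases j <;> simp) ⟨0, rfl⟩
  obtain ⟨C, hC⟩ := hε δ hδ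
  obtain ⟨T, hT, hTC⟩ := hbig |C|
  have h1 := hC T hT
  have h2 : ∀ x : ℝ, ∏ j, ((![F₁, F₂] : Fin 2 → Sel) j).err x ^ (![1, 1] : Fin 2 → ℕ) j =
      ((EE a₁ x * EE a₂ x : ℝ) : ℂ) := by
    intro x
    rw [Fin.prod_univ_two]
    simp only [Matrix.cons_val_zero, Matrix.cons_val_one, pow_one]
    rw [err_eq h10 ha1, err_eq h20 ha2]
    push_cast
    rfl
  simp_rw [h2] at h1
  rw [intervalIntegral.integral_ofReal, Complex.norm_real, Real.norm_eq_abs] at h1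
  have h3 := sig_lt hd1 (hd1.trans hd12.le)
  have h4 : T ^ (1 + sig ![d₁, d₂] ![1, 1] - δ + δ) ≤ T ^ (2 : ℝ) :=
    Real.rpow_le_rpow_of_exponent_le hT (by linarith)
  have h5 : (0 : ℝ) ≤ T ^ (1 + sig ![d₁, d₂] ![1, 1] - δ + δ) := by positivity
  have h6 : C * T ^ (1 + sig ![d₁, d₂] ![1, 1] - δ + δ) ≤ |C| * T ^ (2 : ℝ) :=
    (mul_le_mul_of_nonneg_right (le_abs_self C) h5).trans (mul_le_mul_of_nonneg_left h4 (abs_nonneg _))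
  have h7 := le_abs_self (∫ x in (1:ℝ)..T, EE a₁ x * EE a₂ x)
  linarith

end Pool.Agent.H13R3.EM
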