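import Mathlib
import Pool.Agent.H13R3.EM.Defs2
import Pool.Agent.H886R3.TaskEMB

set_option autoImplicit false

/-!
# EM-D: twist by a weight with a mean value
-/

open Finset MeasureTheory Filter Topology

namespace Pool.Agent.H13R3.EM

open Pool.Agent.H886R3.EMB

/-- product of the two summatory functions -/
noncomputable def f2 (a b : ℕ → ℝ) (x : ℝ) : ℝ := EE a x * EE b x

lemma EE_const (a : ℕ → ℝ) {n : ℕ} {x : ℝ} (h1 : (n:ℝ) ≤ x) (h2 : x < n + 1) : EE a x = EE a n := by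
  unfold EE
  have : ⌊x⌋₊ = n := by
    rw [Nat.floor_eq_iff (by linarith [(Nat.cast_nonneg n : (0:ℝ) ≤ n)])]
    exact ⟨h1, h2⟩
  rw [this, Nat.floor_natCast]

lemma f2_const (a b : ℕ → ℝ) {n : ℕ} {x : ℝ} (h1 : (n:ℝ) ≤ x) (h2 : x < n + 1) : f2 a b x = f2 a b n := by
  unfold f2
  rw [EE_const a h1 h2, EE_const b h1 h2]

lemma nice_f2 (a b : ℕ → ℝ) : Nice (f2 a b) := (nice_EE a).mul (nice_EE b)

/-- integrals over a piece of a unit interval -/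
lemma piece (a b : ℕ → ℝ) {D : ℝ → ℝ} {n : ℕ} {t : ℝ} (h1 : (n:ℝ) ≤ t) (h2 : t ≤ n + 1)
    (hD : IntervalIntegrable D volume n t) :
    IntervalIntegrable (fun x => f2 a b x * D x) volume n t ∧
      ∫ x in (n:ℝ)..t, f2 a b x * D x = f2 a b n * ∫ x in (n:ℝ)..t, D x := by
  have hEq : Set.EqOn (fun x => f2 a b n * D x) (fun x => f2 a b x * D x) (Set.Ioo (n:ℝ) t) := by
    intro x hx
    simp only
    rw [f2_const a b hx.1.le (lt_of_lt_of_le hx.2 h2)]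
  constructor
  · rw [intervalIntegrable_iff_integrableOn_Ioo_of_le h1] at hD ⊢
    exact IntegrableOn.congr_fun (MeasureTheory.Integrable.const_mul hD (f2 a b n)) hEq measurableSet_Ioo
  · rw [← intervalIntegral.integral_const_mul]
    exact intervalIntegral.integral_congr_Ioo_of_le h1 (fun x hx => (hEq hx).symm)

/-- Abel summation -/
lemma abel (a b : ℕ → ℝ) (D e : ℝ → ℝ) (hD : ∀ s t : ℝ, 1 ≤ s → s ≤ t → IntervalIntegrable D volume s t)
    (he : ∀ s t : ℝ, 1 ≤ s → s ≤ t → ∫ x in s..t, D x = e t - e s) (N : ℕ) (hN : 1 ≤ N) :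
    IntervalIntegrable (fun x => f2 a b x * D x) volume 1 N ∧
      ∫ x in (1:ℝ)..N, f2 a b x * D x = f2 a b N * e N - f2 a b 1 * e 1 -
        ∑ n ∈ Icc 2 N, (f2 a b n - f2 a b ((n - 1 : ℕ) : ℝ)) * e n := by
  induction N, hN using Nat.le_induction with
  | base => simp
  | succ N hN ih =>
    have hN1 : (1:ℝ) ≤ N := by exact_mod_cast hN
    obtain ⟨i1, i2⟩ := ih
    have hp := piece a b (D := D) (n := N) (t := (N + 1 : ℕ)) (by push_cast; linarith) (by push_cast; linarith)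
      (hD _ _ hN1 (by push_cast; linarith))
    refine ⟨i1.trans hp.1, ?_⟩
    rw [← intervalIntegral.integral_add_adjacent_intervals i1 hp.1, i2, hp.2,
      he _ _ hN1 (by push_cast; linarith), Finset.sum_Icc_succ_top (by omega)]
    simp only [Nat.add_sub_cancel]
    ring

lemma abel_real (a b : ℕ → ℝ) (D e : ℝ → ℝ) (hD : ∀ s t : ℝ, 1 ≤ s → s ≤ t → IntervalIntegrable D volume s t)
    (he : ∀ s t : ℝ, 1 ≤ s → s ≤ t → ∫ x in s..t, D x = e t - e s) (T : ℝ) (hT : 1 ≤ T) :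
    IntervalIntegrable (fun x => f2 a b x * D x) volume 1 T ∧
      ∫ x in (1:ℝ)..T, f2 a b x * D x = f2 a b ⌊T⌋₊ * e T - f2 a b 1 * e 1 -
        ∑ n ∈ Icc 2 ⌊T⌋₊, (f2 a b n - f2 a b ((n - 1 : ℕ) : ℝ)) * e n := by
  have hN : 1 ≤ ⌊T⌋₊ := by rwa [Nat.one_le_floor_iff]
  have hN1 : (1:ℝ) ≤ ⌊T⌋₊ := by exact_mod_cast hN
  have hle : (⌊T⌋₊ : ℝ) ≤ T := Nat.floor_le (by linarith)
  obtain ⟨i1, i2⟩ := abel a b D e hD he ⌊T⌋₊ hN
  have hp := piece a b (D := D) (n := ⌊T⌋₊) (t := T) hle (Nat.lt_floor_add_one T).le (hD _ _ hN1 hle)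
  refine ⟨i1.trans hp.1, ?_⟩
  rw [← intervalIntegral.integral_add_adjacent_intervals i1 hp.1, i2, hp.2, he _ _ hN1 hle]
  ring

/-- bounds for the summatory function -/
lemma EE_bound {a : ℕ → ℝ} {ε C : ℝ} (hε : 0 < ε) (hC : ∀ n : ℕ, 1 ≤ n → |a n| ≤ C * (n : ℝ) ^ ε) (N : ℕ) :
    |EE a N| ≤ C * (N : ℝ) ^ (1 + ε) := by
  unfold EE
  rw [Nat.floor_natCast]
  have hC0 : 0 ≤ C := by
    have := hC 1 le_rfl
    simp at this
    exact (abs_nonneg _).trans this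
  calc |∑ n ∈ Icc 1 N, a n| ≤ ∑ n ∈ Icc 1 N, |a n| := abs_sum_le_sum_abs _ _
    _ ≤ ∑ n ∈ Icc 1 N, C * (N : ℝ) ^ ε := by
        apply sum_le_sum
        intro n hn
        rw [mem_Icc] at hn
        refine (hC n hn.1).trans ?_
        apply mul_le_mul_of_nonneg_left _ hC0
        exact Real.rpow_le_rpow (Nat.cast_nonneg _) (by exact_mod_cast hn.2) hε.le
    _ = C * (N : ℝ) ^ (1 + ε) := by
        rw [sum_const, Nat.card_Icc, nsmul_eq_mul, Nat.add_sub_cancel]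
        rcases Nat.eq_zero_or_pos N with h0 | h0
        · subst h0
          simp
          right
          rw [Real.zero_rpow (by linarith)]
        · have : (0:ℝ) < N := by exact_mod_cast h0
          rw [Real.rpow_add this, Real.rpow_one]
          ring

lemma EE_succ (a : ℕ → ℝ) {n : ℕ} (hn : 1 ≤ n) : EE a n = EE a ((n - 1 : ℕ) : ℝ) + a n := by
  obtain ⟨k, rfl⟩ : ∃ k, n = k + 1 := ⟨n - 1, by omega⟩
  unfold EE
  rw [Nat.floor_natCast, Nat.floor_natCast, Nat.add_sub_cancel, Finset.sum_Icc_succ_top (by omega)]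

/-- the error term -/
lemma err_bound {a b : ℕ → ℝ} {ε η C1 C2 C0 : ℝ} (hε : 0 < ε) (hη1 : η ≤ 1)
    (hC1 : ∀ n : ℕ, 1 ≤ n → |a n| ≤ C1 * (n : ℝ) ^ ε) (hC2 : ∀ n : ℕ, 1 ≤ n → |b n| ≤ C2 * (n : ℝ) ^ ε)
    (e : ℝ → ℝ) (he : ∀ x, 1 ≤ x → |e x| ≤ C0 * x ^ (1 - η)) (T : ℝ) (hT : 1 ≤ T) :
    |f2 a b ⌊T⌋₊ * e T - f2 a b 1 * e 1 - ∑ n ∈ Icc 2 ⌊T⌋₊, (f2 a b n - f2 a b ((n - 1 : ℕ) : ℝ)) * e n| ≤
      4 * (C1 * C2 * C0) * T ^ (3 + 2 * ε - η) := by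
  have hN : 1 ≤ ⌊T⌋₊ := by rwa [Nat.one_le_floor_iff]
  have hle : (⌊T⌋₊ : ℝ) ≤ T := Nat.floor_le (by linarith)
  have hT0 : 0 < T := by linarith
  have hC10 : 0 ≤ C1 := by
    have := hC1 1 le_rfl
    simp at this
    exact (abs_nonneg _).trans this
  have hC20 : 0 ≤ C2 := by
    have := hC2 1 le_rfl
    simp at this
    exact (abs_nonneg _).trans this
  have hC00 : 0 ≤ C0 := by
    have := he 1 le_rfl
    simp at this
    exact (abs_nonneg _).trans this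
  -- values
  have hf : ∀ n : ℕ, (n : ℝ) ≤ T → |f2 a b n| ≤ C1 * C2 * T ^ (2 + 2 * ε) := by
    intro n hn
    unfold f2
    rw [abs_mul]
    have h1 := EE_bound hε hC1 n
    have h2 := EE_bound hε hC2 n
    have h3 : (n : ℝ) ^ (1 + ε) ≤ T ^ (1 + ε) := Real.rpow_le_rpow (Nat.cast_nonneg _) hn (by linarith)
    calc |EE a n| * |EE b n| ≤ (C1 * T ^ (1 + ε)) * (C2 * T ^ (1 + ε)) := by
          apply mul_le_mul (h1.trans (mul_le_mul_of_nonneg_left h3 hC10)) (h2.trans (mul_le_mul_of_nonneg_left h3 hC20))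
            (abs_nonneg _) (by positivity)
      _ = C1 * C2 * (T ^ (1 + ε) * T ^ (1 + ε)) := by ring
      _ = C1 * C2 * T ^ (2 + 2 * ε) := by
          rw [← Real.rpow_add hT0]
          congr 2
          ring
  have hdf : ∀ n : ℕ, 1 ≤ n → (n : ℝ) ≤ T → |f2 a b n - f2 a b ((n - 1 : ℕ) : ℝ)| ≤ 2 * (C1 * C2) * T ^ (1 + 2 * ε) := by
    intro n hn1 hn
    have hn' : ((n - 1 : ℕ) : ℝ) ≤ T := le_trans (by exact_mod_cast Nat.sub_le _ _) hn
    have e1 : f2 a b n - f2 a b ((n - 1 : ℕ) : ℝ) = a n * EE b n + EE a ((n - 1 : ℕ) : ℝ) * b n := by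
      unfold f2
      rw [EE_succ a hn1, EE_succ b hn1]
      ring
    rw [e1]
    have h1 := EE_bound hε hC1 (n - 1)
    have h2 := EE_bound hε hC2 n
    have h3 : (n : ℝ) ^ (1 + ε) ≤ T ^ (1 + ε) := Real.rpow_le_rpow (Nat.cast_nonneg _) hn (by linarith)
    have h3' : ((n - 1 : ℕ) : ℝ) ^ (1 + ε) ≤ T ^ (1 + ε) := Real.rpow_le_rpow (Nat.cast_nonneg _) hn' (by linarith)
    have h4 : (n : ℝ) ^ ε ≤ T ^ ε := Real.rpow_le_rpow (Nat.cast_nonneg _) hn hε.le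
    have h5 : T ^ ε * T ^ (1 + ε) = T ^ (1 + 2 * ε) := by
      rw [← Real.rpow_add hT0]
      congr 1
      ring
    refine (abs_add_le _ _).trans ?_
    rw [abs_mul, abs_mul]
    have g1 : |a n| * |EE b n| ≤ (C1 * T ^ ε) * (C2 * T ^ (1 + ε)) :=
      mul_le_mul ((hC1 n hn1).trans (mul_le_mul_of_nonneg_left h4 hC10)) (h2.trans (mul_le_mul_of_nonneg_left h3 hC20))
        (abs_nonneg _) (by positivity)
    have g2 : |EE a ((n - 1 : ℕ) : ℝ)| * |b n| ≤ (C1 * T ^ (1 + ε)) * (C2 * T ^ ε) :=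
      mul_le_mul (h1.trans (mul_le_mul_of_nonneg_left h3' hC10)) ((hC2 n hn1).trans (mul_le_mul_of_nonneg_left h4 hC20))
        (abs_nonneg _) (by positivity)
    calc _ ≤ (C1 * T ^ ε) * (C2 * T ^ (1 + ε)) + (C1 * T ^ (1 + ε)) * (C2 * T ^ ε) := add_le_add g1 g2
      _ = 2 * (C1 * C2) * (T ^ ε * T ^ (1 + ε)) := by ring
      _ = _ := by rw [h5]
  have hee : ∀ x : ℝ, 1 ≤ x → x ≤ T → |e x| ≤ C0 * T ^ (1 - η) := by
    intro x hx hxT
    refine (he x hx).trans ?_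
    apply mul_le_mul_of_nonneg_left _ hC00
    exact Real.rpow_le_rpow (by linarith) hxT (by linarith)
  have t1 : |f2 a b ⌊T⌋₊ * e T| ≤ (C1 * C2 * C0) * T ^ (3 + 2 * ε - η) := by
    rw [abs_mul]
    calc |f2 a b ⌊T⌋₊| * |e T| ≤ (C1 * C2 * T ^ (2 + 2 * ε)) * (C0 * T ^ (1 - η)) :=
          mul_le_mul (hf _ hle) (hee T hT le_rfl) (abs_nonneg _) (by positivity)
      _ = (C1 * C2 * C0) * (T ^ (2 + 2 * ε) * T ^ (1 - η)) := by ring
      _ = _ := by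
          rw [← Real.rpow_add hT0]
          congr 2
          ring
  have t2 : |f2 a b 1 * e 1| ≤ (C1 * C2 * C0) * T ^ (3 + 2 * ε - η) := by
    rw [abs_mul]
    have h1 := hf 1 (by push_cast; exact hT)
    rw [Nat.cast_one] at h1
    calc |f2 a b 1| * |e 1| ≤ (C1 * C2 * T ^ (2 + 2 * ε)) * (C0 * T ^ (1 - η)) :=
          mul_le_mul h1 (hee 1 le_rfl hT) (abs_nonneg _) (by positivity)
      _ = (C1 * C2 * C0) * (T ^ (2 + 2 * ε) * T ^ (1 - η)) := by ring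
      _ = _ := by
          rw [← Real.rpow_add hT0]
          congr 2
          ring
  have t3 : |∑ n ∈ Icc 2 ⌊T⌋₊, (f2 a b n - f2 a b ((n - 1 : ℕ) : ℝ)) * e n| ≤ 2 * (C1 * C2 * C0) * T ^ (3 + 2 * ε - η) := by
    calc |∑ n ∈ Icc 2 ⌊T⌋₊, (f2 a b n - f2 a b ((n - 1 : ℕ) : ℝ)) * e n|
        ≤ ∑ n ∈ Icc 2 ⌊T⌋₊, |(f2 a b n - f2 a b ((n - 1 : ℕ) : ℝ)) * e n| := abs_sum_le_sum_abs _ _
      _ ≤ ∑ n ∈ Icc 2 ⌊T⌋₊, (2 * (C1 * C2) * T ^ (1 + 2 * ε)) * (C0 * T ^ (1 - η)) := by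
          apply sum_le_sum
          intro n hn
          rw [mem_Icc] at hn
          have hnT : (n : ℝ) ≤ T := le_trans (by exact_mod_cast hn.2) hle
          have hn1 : (1:ℝ) ≤ n := by exact_mod_cast (by omega : 1 ≤ n)
          rw [abs_mul]
          exact mul_le_mul (hdf n (by omega) hnT) (hee n hn1 hnT) (abs_nonneg _) (by positivity)
      _ ≤ T * ((2 * (C1 * C2) * T ^ (1 + 2 * ε)) * (C0 * T ^ (1 - η))) := by
          rw [sum_const, nsmul_eq_mul]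
          apply mul_le_mul_of_nonneg_right _ (by positivity)
          rw [Nat.card_Icc]
          refine le_trans ?_ hle
          exact_mod_cast (by omega : ⌊T⌋₊ + 1 - 2 ≤ ⌊T⌋₊)
      _ = 2 * (C1 * C2 * C0) * (T ^ (1:ℝ) * T ^ (1 + 2 * ε) * T ^ (1 - η)) := by rw [Real.rpow_one]; ring
      _ = _ := by
          rw [← Real.rpow_add hT0, ← Real.rpow_add hT0]
          congr 2
          ring
  calc _ ≤ |f2 a b ⌊T⌋₊ * e T - f2 a b 1 * e 1| + |∑ n ∈ Icc 2 ⌊T⌋₊, (f2 a b n - f2 a b ((n - 1 : ℕ) : ℝ)) * e n| :=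
        abs_sub _ _
    _ ≤ (|f2 a b ⌊T⌋₊ * e T| + |f2 a b 1 * e 1|) + _ := add_le_add_left (abs_sub _ _) _
    _ ≤ _ := by linarith

end Pool.Agent.H13R3.EM
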