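import Mathlib
import Pool.Agent.H13R3.EM.TaskD

set_option autoImplicit false

/-!
# EM-D, second part: polynomials, main term, conclusion
-/

open Finset MeasureTheory Filter Topology

namespace Pool.Agent.H13R3.EM

open Pool.Agent.H886R3.EMB

/-- lower bound for a polynomial with positive leading coefficient -/
lemma poly_low {q : Polynomial ℝ} (hq : 0 < q.leadingCoeff) :
    ∃ L₀ : ℝ, 1 ≤ L₀ ∧ ∀ L : ℝ, L₀ ≤ L → q.leadingCoeff / 2 * L ^ q.natDegree ≤ q.eval L := by
  have hq0 : q ≠ 0 := by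
    rintro rfl
    simp at hq
  have h1 := Polynomial.div_tendsto_atTop_leadingCoeff_div_of_degree_eq (P := q) (Q := Polynomial.X ^ q.natDegree)
    (by rw [Polynomial.degree_X_pow, Polynomial.degree_eq_natDegree hq0])
  simp only [Polynomial.eval_pow, Polynomial.eval_X, Polynomial.leadingCoeff_X_pow, div_one] at h1
  have h2 : ∀ᶠ L in atTop, q.leadingCoeff / 2 < q.eval L / L ^ q.natDegree :=
    h1.eventually (lt_mem_nhds (by linarith))
  obtain ⟨L₁, hL₁⟩ := Filter.eventually_atTop.1 h2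
  refine ⟨max L₁ 1, le_max_right _ _, fun L hL => ?_⟩
  have h3 := hL₁ L ((le_max_left _ _).trans hL)
  have hL0 : 0 < L := by linarith [(le_max_right L₁ 1).trans hL]
  rw [lt_div_iff₀ (by positivity)] at h3
  exact h3.le

lemma poly_der {q : Polynomial ℝ} (hq : 0 < q.leadingCoeff) :
    ∃ c₁ L₀ : ℝ, 0 < c₁ ∧ 1 ≤ L₀ ∧ ∀ L : ℝ, L₀ ≤ L → 2 * c₁ ≤ q.eval L ∧
      ∀ u : ℝ, 0 ≤ u → u ≤ L → 5 * |q.derivative.eval u| ≤ q.eval L := by
  obtain ⟨L₁, hL₁, h1⟩ := poly_low hq
  set B : ℝ := ∑ i ∈ range (q.derivative.natDegree + 1), |q.derivative.coeff i| with hB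
  have hB0 : 0 ≤ B := sum_nonneg fun _ _ => abs_nonneg _
  refine ⟨q.leadingCoeff / 4, max L₁ (10 * B / q.leadingCoeff), by positivity, hL₁.trans (le_max_left _ _),
    fun L hL => ?_⟩
  have hLL : L₁ ≤ L := (le_max_left _ _).trans hL
  have hL1 : 1 ≤ L := hL₁.trans hLL
  have hLB : 10 * B ≤ L * q.leadingCoeff := by
    have : 10 * B / q.leadingCoeff ≤ L := (le_max_right _ _).trans hL
    rwa [div_le_iff₀ hq] at this
  have h2 := h1 L hLL
  have h3 : 1 ≤ L ^ q.natDegree := one_le_pow₀ hL1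
  constructor
  · nlinarith
  · intro u hu0 hu1
    rcases Nat.eq_zero_or_pos q.natDegree with hn | hn
    · rw [Polynomial.derivative_of_natDegree_zero hn]
      simp only [Polynomial.eval_zero, abs_zero, mul_zero]
      nlinarith
    · have h4 : |q.derivative.eval u| ≤ B * L ^ (q.natDegree - 1) := by
        rw [Polynomial.eval_eq_sum_range, hB, sum_mul]
        refine (abs_sum_le_sum_abs _ _).trans (sum_le_sum fun i hi => ?_)
        rw [mem_range] at hi
        rw [abs_mul, abs_pow, abs_of_nonneg hu0]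
        apply mul_le_mul_of_nonneg_left _ (abs_nonneg _)
        have hdeg := Polynomial.natDegree_derivative_le q
        calc u ^ i ≤ L ^ i := pow_le_pow_left₀ hu0 hu1 i
          _ ≤ L ^ (q.natDegree - 1) := pow_le_pow_right₀ hL1 (by omega)
      have h5 : L ^ q.natDegree = L ^ (q.natDegree - 1) * L := by
        rw [← pow_succ]
        congr 1
        omega
      have h6 : 0 < L ^ (q.natDegree - 1) := by positivity
      calc 5 * |q.derivative.eval u| ≤ 5 * (B * L ^ (q.natDegree - 1)) := by linarith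
        _ = (10 * B) * (L ^ (q.natDegree - 1) / 2) := by ring
        _ ≤ (L * q.leadingCoeff) * (L ^ (q.natDegree - 1) / 2) := mul_le_mul_of_nonneg_right hLB (by positivity)
        _ = q.leadingCoeff / 2 * L ^ q.natDegree := by rw [h5]; ring
        _ ≤ _ := h2

/-- a nonnegative weight forces a positive leading coefficient -/
lemma lead_pos {P : Polynomial ℝ} (hP : P ≠ 0) {C₀ η : ℝ} (hη : 0 < η)
    (h : ∀ T : ℝ, 1 ≤ T → -(C₀ * T ^ (-η)) ≤ P.eval (Real.log T)) : 0 < P.leadingCoeff := by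
  by_contra hcon
  have hlc : P.leadingCoeff ≠ 0 := Polynomial.leadingCoeff_ne_zero.2 hP
  have hneg : 0 < (-P).leadingCoeff := by
    rw [Polynomial.leadingCoeff_neg]
    have : P.leadingCoeff < 0 := lt_of_le_of_ne (not_lt.1 hcon) hlc
    linarith
  obtain ⟨c₁, L₀, hc₁, hL₀, h1⟩ := poly_der hneg
  have ht : Tendsto (fun T : ℝ => C₀ * T ^ (-η)) atTop (𝓝 (C₀ * 0)) := (tendsto_rpow_neg_atTop hη).const_mul C₀
  rw [mul_zero] at ht
  have h2 : ∀ᶠ T in atTop, C₀ * T ^ (-η) < 2 * c₁ := ht.eventually (gt_mem_nhds (by positivity))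
  obtain ⟨T, hT1, hT2, hT3⟩ := (h2.and ((eventually_ge_atTop (1:ℝ)).and (Real.tendsto_log_atTop.eventually (eventually_ge_atTop L₀)))).exists
  have h3 := (h1 _ hT3).1
  rw [Polynomial.eval_neg] at h3
  have h4 := h T hT2
  linarith

/-- the main term -/
lemma main_term {a b : ℕ → ℝ} {κ c₁ T : ℝ} (hκ : 0 ≤ κ) {q : Polynomial ℝ} (hT : 1 ≤ T)
    (hq : 2 * c₁ ≤ q.eval (Real.log T)) (hq' : ∀ u : ℝ, 0 ≤ u → u ≤ Real.log T → 5 * |q.derivative.eval u| ≤ q.eval (Real.log T))
    (hI : 0 ≤ II a T)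
    (hJ : 3 / 4 * II a T ≤ ∫ x in (1:ℝ)..T, f2 a b x)
    (hJ' : ∀ y : ℝ, 1 ≤ y → y ≤ T → |∫ x in (1:ℝ)..y, f2 a b x| ≤ 5 / 4 * (y / T) ^ (1 + 2 * κ) * II a T)
    (hc₁ : 0 < c₁) :
    c₁ * II a T ≤ ∫ x in (1:ℝ)..T, f2 a b x * q.eval (Real.log x) := by
  have hT0 : 0 < T := by linarith
  set J : ℝ → ℝ := fun y => ∫ x in (1:ℝ)..y, f2 a b x with hJdef
  have hnice := nice_f2 a b
  have hJc : Continuous J := intervalIntegral.continuous_primitive (fun s t => hnice.intervalIntegrable s t) 1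
  have hpos : ∀ x ∈ Set.uIcc 1 T, 0 < x := by
    intro x hx
    rw [Set.uIcc_of_le hT] at hx
    linarith [hx.1]
  have hqc : ContinuousOn (fun x : ℝ => q.eval (Real.log x)) (Set.uIcc 1 T) := by
    intro x hx
    have := hpos x hx
    exact (q.continuous.continuousAt.comp (Real.continuousAt_log this.ne')).continuousWithinAt
  have hq'c : ContinuousOn (fun x : ℝ => q.derivative.eval (Real.log x) / x) (Set.uIcc 1 T) := by
    intro x hx
    have := hpos x hx
    exact ((q.derivative.continuous.continuousAt.comp (Real.continuousAt_log this.ne')).div continuousAt_id this.ne').continuousWithinAt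
  have hparts := intervalIntegral.integral_mul_deriv_eq_deriv_mul_of_hasDeriv_right (a := 1) (b := T)
    (u := fun x : ℝ => q.eval (Real.log x)) (v := J) (u' := fun x => q.derivative.eval (Real.log x) / x)
    (v' := f2 a b) hqc hJc.continuousOn
    (by
      intro x hx
      rw [min_eq_left hT, max_eq_right hT] at hx
      have hx0 : 0 < x := by linarith [hx.1]
      have h1 := (q.hasDerivAt (Real.log x)).comp x (Real.hasDerivAt_log hx0.ne')
      rw [← div_eq_mul_inv] at h1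
      exact h1.hasDerivWithinAt)
    (by
      intro x hx
      rw [min_eq_left hT, max_eq_right hT] at hx
      have hx0 : 0 ≤ x := by linarith [hx.1]
      have hcw : ContinuousWithinAt (f2 a b) (Set.Ioi x) x := by
        have h1 : (f2 a b) =ᶠ[𝓝[>] x] fun _ => f2 a b x := by
          have h2 : ∀ᶠ y : ℝ in 𝓝[>] x, y < (⌊x⌋₊ : ℝ) + 1 :=
            nhdsWithin_le_nhds (gt_mem_nhds (Nat.lt_floor_add_one x))
          filter_upwards [h2, self_mem_nhdsWithin] with y hy1 hy2
          have h3 : (⌊x⌋₊ : ℝ) ≤ x := Nat.floor_le hx0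
          have hy2' : x < y := hy2
          rw [f2_const a b (n := ⌊x⌋₊) (by linarith) hy1, f2_const a b (n := ⌊x⌋₊) h3 (Nat.lt_floor_add_one x)]
        exact continuousWithinAt_const.congr_of_eventuallyEq h1 rfl
      have h4 : HasDerivWithinAt J (f2 a b x) (Set.Ici x) x :=
        intervalIntegral.integral_hasDerivWithinAt_right (hnice.intervalIntegrable 1 x)
          (hnice.1.aestronglyMeasurable.stronglyMeasurableAtFilter) hcw
      exact h4.mono Set.Ioi_subset_Ici_self)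
    hq'c.intervalIntegrable (hnice.intervalIntegrable 1 T)
  have e1 : ∫ x in (1:ℝ)..T, f2 a b x * q.eval (Real.log x) = ∫ x in (1:ℝ)..T, q.eval (Real.log x) * f2 a b x := by
    congr 1
    funext x
    ring
  have hJ1 : J 1 = 0 := by simp [hJdef]
  rw [e1, hparts, hJ1, mul_zero, sub_zero]
  -- bound of the remaining integral
  set Q : ℝ := q.eval (Real.log T) with hQ
  have hQ0 : 0 < Q := by linarith
  have hrem : |∫ x in (1:ℝ)..T, q.derivative.eval (Real.log x) / x * J x| ≤ Q / 4 * II a T := by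
    have hb : ∀ x ∈ Set.Icc (1:ℝ) T, |q.derivative.eval (Real.log x) / x * J x| ≤ Q / 4 * II a T / T := by
      intro x hx
      have hx0 : 0 < x := by linarith [hx.1]
      have hlog0 : 0 ≤ Real.log x := Real.log_nonneg hx.1
      have hlog1 : Real.log x ≤ Real.log T := Real.log_le_log hx0 hx.2
      have h1 := hq' _ hlog0 hlog1
      have h2 := hJ' x hx.1 hx.2
      have h3 : (x / T) ^ (1 + 2 * κ) ≤ x / T := by
        have hxT : x / T ≤ 1 := by rw [div_le_one hT0]; exact hx.2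
        calc (x / T) ^ (1 + 2 * κ) ≤ (x / T) ^ (1 : ℝ) :=
              Real.rpow_le_rpow_of_exponent_ge (by positivity) hxT (by linarith)
          _ = x / T := Real.rpow_one _
      have h4 : |J x| ≤ 5 / 4 * (x / T) * II a T := by
        refine h2.trans ?_
        apply mul_le_mul_of_nonneg_right _ hI
        linarith
      rw [abs_mul, abs_div, abs_of_pos hx0]
      calc |q.derivative.eval (Real.log x)| / x * |J x| ≤ (Q / 5) / x * (5 / 4 * (x / T) * II a T) := by
            apply mul_le_mul _ h4 (abs_nonneg _) (by positivity)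
            apply div_le_div_of_nonneg_right _ hx0.le
            linarith
        _ = Q / 4 * II a T / T := by field_simp
    have h5 := intervalIntegral.norm_integral_le_of_norm_le_const (a := 1) (b := T)
      (f := fun x => q.derivative.eval (Real.log x) / x * J x) (C := Q / 4 * II a T / T) (by
        intro x hx
        rw [Set.uIoc_of_le hT] at hx
        rw [Real.norm_eq_abs]
        exact hb x ⟨hx.1.le, hx.2⟩)
    rw [Real.norm_eq_abs] at h5
    refine h5.trans ?_
    rw [abs_of_nonneg (by linarith)]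
    calc Q / 4 * II a T / T * (T - 1) ≤ Q / 4 * II a T / T * T :=
          mul_le_mul_of_nonneg_left (by linarith) (by positivity)
      _ = Q / 4 * II a T := by field_simp
  have h6 : Q * (3 / 4 * II a T) ≤ Q * J T := mul_le_mul_of_nonneg_left hJ hQ0.le
  have h7 := (abs_le.1 hrem).2
  have h8 : c₁ * II a T ≤ Q / 2 * II a T := mul_le_mul_of_nonneg_right (by linarith) hI
  linarith

/-- **Task D** (for `η ≤ 1`). -/
theorem taskD' (hP : TaskP) (κ η : ℝ) (a g : ℕ → ℝ) (w : ℝ → ℝ) (P : Polynomial ℝ) (hκ : 0 ≤ κ) (hη : 0 < η)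
    (hη1 : η ≤ 1) (hκη : 3 - η < 1 + 2 * κ)
    (hg1 : g 1 = 1) (hgs : Summable (fun k : ℕ => |g k| * (k : ℝ) ^ (-κ)))
    (hgt : ∑' k : ℕ, (if 2 ≤ k then |g k| * (k : ℝ) ^ (-κ) else 0) ≤ 1 / 4)
    (ha : ∀ ε : ℝ, 0 < ε → ∃ C : ℝ, ∀ n : ℕ, 1 ≤ n → |a n| ≤ C * (n : ℝ) ^ ε)
    (hb : ∀ ε : ℝ, 0 < ε → ∃ C : ℝ, ∀ n : ℕ, 1 ≤ n → |cv g a n| ≤ C * (n : ℝ) ^ ε)
    (hw : ∀ x, 0 ≤ w x) (hwi : ∀ T : ℝ, 1 ≤ T → IntervalIntegrable w volume 1 T) (hP0 : P ≠ 0)
    (hmean : ∃ C : ℝ, ∀ T : ℝ, 1 ≤ T → |(∫ x in (1:ℝ)..T, w x) - T * P.eval (Real.log T)| ≤ C * T ^ (1 - η))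
    (hbig : ∀ C : ℝ, ∃ T : ℝ, 1 ≤ T ∧ C * T ^ (1 + 2 * κ) < ∫ x in (1:ℝ)..T, (EE a x) ^ 2) :
    ∀ C : ℝ, ∃ T : ℝ, 1 ≤ T ∧ C * T ^ (1 + 2 * κ) < ∫ x in (1:ℝ)..T, EE a x * EE (cv g a) x * w x := by
  intro C
  obtain ⟨C₀, hC₀⟩ := hmean
  set ε : ℝ := (1 + 2 * κ - (3 - η)) / 2 with hε
  have hε0 : 0 < ε := by rw [hε]; linarith
  obtain ⟨C₁, hC₁⟩ := ha ε hε0
  obtain ⟨C₂, hC₂⟩ := hb ε hε0
  set b : ℕ → ℝ := cv g a with hbdef
  -- positivity of the leading coefficient
  have hlP : 0 < P.leadingCoeff := by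
    refine lead_pos hP0 hη (C₀ := C₀) fun T hT => ?_
    have hT0 : 0 < T := by linarith
    have h1 := (abs_le.1 (hC₀ T hT)).2
    have h2 : 0 ≤ ∫ x in (1:ℝ)..T, w x := intervalIntegral.integral_nonneg hT fun x _ => hw x
    have h3 : T ^ (1 - η) = T * T ^ (-η) := by
      rw [sub_eq_add_neg, Real.rpow_add hT0, Real.rpow_one]
    rw [h3] at h1
    have h4 : T * (-(C₀ * T ^ (-η))) ≤ T * P.eval (Real.log T) := by linarith
    exact le_of_mul_le_mul_left h4 hT0
  set q : Polynomial ℝ := P + P.derivative with hq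
  have hlq : 0 < q.leadingCoeff := by
    rw [hq, Polynomial.leadingCoeff_add_of_degree_lt' (Polynomial.degree_derivative_lt hP0)]
    exact hlP
  obtain ⟨c₁, L₀, hc₁, hL₀, hpoly⟩ := poly_der hlq
  -- error function
  set D : ℝ → ℝ := fun x => w x - q.eval (Real.log x) with hD
  set e : ℝ → ℝ := fun x => (∫ y in (1:ℝ)..x, w y) - x * P.eval (Real.log x) with he
  have hwi2 : ∀ s t : ℝ, 1 ≤ s → s ≤ t → IntervalIntegrable w volume s t := fun s t hs hst =>
    (hwi s hs).symm.trans (hwi t (hs.trans hst))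
  have hqi : ∀ s t : ℝ, 1 ≤ s → s ≤ t → IntervalIntegrable (fun x => q.eval (Real.log x)) volume s t := by
    intro s t hs hst
    apply ContinuousOn.intervalIntegrable
    intro x hx
    rw [Set.uIcc_of_le hst] at hx
    have : 0 < x := by linarith [hx.1]
    exact (q.continuous.continuousAt.comp (Real.continuousAt_log this.ne')).continuousWithinAt
  have hDi : ∀ s t : ℝ, 1 ≤ s → s ≤ t → IntervalIntegrable D volume s t := fun s t hs hst =>
    (hwi2 s t hs hst).sub (hqi s t hs hst)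
  have heD : ∀ s t : ℝ, 1 ≤ s → s ≤ t → ∫ x in s..t, D x = e t - e s := by
    intro s t hs hst
    rw [hD, intervalIntegral.integral_sub (hwi2 s t hs hst) (hqi s t hs hst)]
    have h1 : ∫ x in s..t, q.eval (Real.log x) = t * P.eval (Real.log t) - s * P.eval (Real.log s) := by
      apply intervalIntegral.integral_eq_sub_of_hasDerivAt (f := fun x => x * P.eval (Real.log x)) _ (hqi s t hs hst)
      intro x hx
      rw [Set.uIcc_of_le hst] at hx
      have hx0 : 0 < x := by linarith [hx.1]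
      have h2 := (hasDerivAt_id x).mul ((P.hasDerivAt (Real.log x)).comp x (Real.hasDerivAt_log hx0.ne'))
      refine HasDerivAt.congr_deriv h2 ?_
      rw [hq, Polynomial.eval_add]
      simp only [Function.comp_apply, id]
      field_simp
    have h3 : ∫ x in s..t, w x = (∫ y in (1:ℝ)..t, w y) - ∫ y in (1:ℝ)..s, w y := by
      rw [← intervalIntegral.integral_add_adjacent_intervals (hwi s hs) (hwi2 s t hs hst)]
      ring
    rw [h1, h3, he]
    ring
  have hee : ∀ x, 1 ≤ x → |e x| ≤ C₀ * x ^ (1 - η) := fun x hx => hC₀ x hx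
  set K : ℝ := 4 * (C₁ * C₂ * C₀) with hK
  -- choice of the peak
  obtain ⟨T, hT, hTL, hbigT, hJ, hJ'⟩ := hP κ a g hκ hg1 hgs hgt hbig ((|C| + |K|) / c₁) (Real.exp L₀)
  have hT0 : 0 < T := by linarith
  have hlogT : L₀ ≤ Real.log T := by
    rw [Real.le_log_iff_exp_le hT0]
    exact hTL
  obtain ⟨hp1, hp2⟩ := hpoly _ hlogT
  have hI := II_nonneg a hT
  have hmain := main_term (a := a) (b := b) hκ hT hp1 hp2 hI hJ hJ' hc₁
  obtain ⟨hfi, hfe⟩ := abel_real a b D e hDi heD T hT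
  have herr := err_bound hε0 hη1 hC₁ hC₂ e hee T hT
  rw [← hfe] at herr
  have hexp : 3 + 2 * ε - η = 1 + 2 * κ := by rw [hε]; ring
  rw [hexp] at herr
  have hsplit : ∫ x in (1:ℝ)..T, f2 a b x * w x = (∫ x in (1:ℝ)..T, f2 a b x * D x) +
      ∫ x in (1:ℝ)..T, f2 a b x * q.eval (Real.log x) := by
    rw [← intervalIntegral.integral_add hfi]
    · congr 1
      funext x
      rw [hD]
      ring
    · have hqc : ContinuousOn (fun x : ℝ => q.eval (Real.log x)) (Set.uIcc 1 T) := by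
        intro x hx
        rw [Set.uIcc_of_le hT] at hx
        have : 0 < x := by linarith [hx.1]
        exact (q.continuous.continuousAt.comp (Real.continuousAt_log this.ne')).continuousWithinAt
      exact ((nice_f2 a b).intervalIntegrable 1 T).mul_continuousOn hqc
  have hTp : 0 < T ^ (1 + 2 * κ) := by positivity
  refine ⟨T, hT, ?_⟩
  change C * T ^ (1 + 2 * κ) < ∫ x in (1:ℝ)..T, f2 a b x * w x
  rw [hsplit]
  have h1 : (|C| + |K|) * T ^ (1 + 2 * κ) < c₁ * II a T := by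
    have h2 : (|C| + |K|) / c₁ * T ^ (1 + 2 * κ) < II a T := hbigT
    calc (|C| + |K|) * T ^ (1 + 2 * κ) = c₁ * ((|C| + |K|) / c₁ * T ^ (1 + 2 * κ)) := by field_simp
      _ < c₁ * II a T := mul_lt_mul_of_pos_left h2 hc₁
  have h3 := (abs_le.1 herr).1
  have h4 : K * T ^ (1 + 2 * κ) ≤ |K| * T ^ (1 + 2 * κ) := mul_le_mul_of_nonneg_right (le_abs_self _) hTp.le
  have h5 : C * T ^ (1 + 2 * κ) ≤ |C| * T ^ (1 + 2 * κ) := mul_le_mul_of_nonneg_right (le_abs_self _) hTp.le
  nlinarith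

end Pool.Agent.H13R3.EM
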