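import Mathlib
import Pool.Agent.H13R3.EM.Neg
import Pool.Agent.H13R3.EM.TaskD2

set_option autoImplicit false

/-!
# Twisted version: MP_2a1a00_nt
-/

namespace Pool.Agent.H13R3.EM

open Finset Pool.Agent.H469R10.HO

/-- The construction with all data: `κ` arbitrarily close to `1`. -/
theorem data (hA : TaskA) (t : ℝ) (ht : t < 1) :
    ∃ (F₁ F₂ : Sel) (a g : ℕ → ℝ) (κ : ℝ) (d₁ d₂ : ℕ), t ≤ κ ∧ 0 ≤ κ ∧ 2 ≤ d₁ ∧ d₁ < d₂ ∧ F₁.deg = d₁ ∧ F₂.deg = d₂ ∧
      F₁.m0 = 0 ∧ F₂.m0 = 0 ∧ (∀ n, 1 ≤ n → F₁.a n = ((a n : ℝ) : ℂ)) ∧ (∀ n, 1 ≤ n → F₂.a n = ((cv g a n : ℝ) : ℂ)) ∧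
      g 1 = 1 ∧ Summable (fun k : ℕ => |g k| * (k : ℝ) ^ (-κ)) ∧
      ∑' k : ℕ, (if 2 ≤ k then |g k| * (k : ℝ) ^ (-κ) else 0) ≤ 1 / 4 ∧
      (∀ C : ℝ, ∃ T : ℝ, 1 ≤ T ∧ C * T ^ (1 + 2 * κ) < ∫ x in (1:ℝ)..T, (EE a x) ^ 2) := by
  obtain ⟨m₀, hm₀, hcore⟩ := core_rough
  set m' : ℕ := max m₀ ⌈1 / (1 - t)⌉₊ with hm'
  set m : ℕ := 5 * m' + 10 with hm
  have hm'0 : m₀ ≤ m' := le_max_left _ _
  have hm'1 : 1 / (1 - t) ≤ m' := (Nat.le_ceil _).trans (by exact_mod_cast le_max_right _ _)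
  have hmm0 : m₀ ≤ m := by omega
  obtain ⟨c, A, β, α, hO⟩ := hcore m hmm0 1 one_pos
  obtain ⟨c', A', β', α', hO'⟩ := hcore m' hm'0 (1 / 4) (by norm_num)
  obtain ⟨F₁, h10, h1d, h1a⟩ := toSel (by omega) hO
  obtain ⟨F', h20, h2d, h2a⟩ := toSel (by omega) hO'
  obtain ⟨F₂, h30, h3d, h3a⟩ := Pool.Agent.H886R3.EMC.taskC F' F₁ h20 h10
  have hl' := lam_pos m'
  have hl := lam_pos m
  have hlm : lamH m = 5 * lamH m' + 14 := by
    rw [hm]
    unfold lamH
    push_cast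
    ring
  have hk' := kap_eq m'
  have hk := kap_eq m
  have hkap0 : 0 < kap m' := by unfold kap; positivity
  have hκ : kap m' + 3 / lamH m < kap m := by
    rw [hk', hk]
    have e1 : 3 / lamH m + 3 / (4 * lamH m) = 15 / 4 / lamH m := by field_simp; ring
    have e2 : 3 / (4 * lamH m') = 3 / 4 / lamH m' := by field_simp
    have e3 : 15 / 4 / lamH m < 3 / 4 / lamH m' := by
      rw [div_lt_div_iff₀ hl hl', hlm]
      nlinarith
    linarith
  have hθκ : t ≤ kap m' := by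
    rw [hk']
    have hpos : 0 < 1 - t := by linarith
    rw [div_le_iff₀ hpos] at hm'1
    have hlm' : (m' : ℝ) ≤ lamH m' := by
      unfold lamH
      have : (0:ℝ) ≤ m' := Nat.cast_nonneg _
      linarith
    have e1 : 3 / (4 * lamH m') ≤ 1 - t := by
      rw [div_le_iff₀ (by positivity)]
      nlinarith
    linarith
  have hfr : ∀ k : ℕ, |fr m' β' k| * (k : ℝ) ^ (-kap m') = if k = 0 then 0 else |α' k| := by
    intro k
    by_cases hk0 : k = 0
    · subst hk0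
      rw [if_pos rfl, fr_zero, abs_zero, zero_mul]
    · rw [if_neg hk0, fr_eq hO'.hα (by omega), abs_mul]
      have hkp : (0:ℝ) < k := by exact_mod_cast (by omega : 0 < k)
      rw [abs_of_pos (Real.rpow_pos_of_pos hkp _), mul_assoc, ← Real.rpow_add hkp]
      simp
  have hgs : Summable (fun k : ℕ => |fr m' β' k| * (k : ℝ) ^ (-kap m')) := by
    simp_rw [hfr]
    exact Summable.of_nonneg_of_le (fun n => by split_ifs <;> positivity)
      (fun n => by split_ifs <;> simp) hO'.hsum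
  have hgt : ∑' k : ℕ, (if 2 ≤ k then |fr m' β' k| * (k : ℝ) ^ (-kap m') else 0) ≤ 1 / 4 := by
    refine le_trans (le_of_eq (tsum_congr fun k => ?_)) hO'.hsmall
    rw [hfr]
    split_ifs <;> first | rfl | omega
  refine ⟨F₁, F₂, fr m β, fr m' β', kap m', 4 * m + 3, (4 * m' + 3) + (4 * m + 3), hθκ, hkap0.le, by omega, by omega,
    h1d, ?_, h10, h30, fun n _ => h1a n, fun n hn => ?_, fr_one, hgs, hgt, big_of_rough hA hO hkap0.le hκ⟩
  · rw [h3d, h1d, h2d]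
    push_cast
    ring
  · rw [h3a n hn]
    unfold cv
    push_cast
    exact sum_congr rfl fun x _ => by rw [h2a, h1a]

/-- value of the function at a point other than its pole -/
noncomputable def Sel.val (F : Sel) (s : ℂ) : ℂ := F.G s / (s - 1) ^ F.m0

/-- `∫_1^T |F(1/2+it)|^2 dt = T P(log T) + O(T^(1-η))` with `P ≠ 0` -/
def MeanSq (L : Sel) (P : Polynomial ℝ) (η : ℝ) : Prop := P ≠ 0 ∧ 0 < η ∧
  ∃ C : ℝ, ∀ T : ℝ, 1 ≤ T →
    |(∫ x in (1:ℝ)..T, ‖L.val (1 / 2 + x * Complex.I)‖ ^ 2) - T * P.eval (Real.log T)| ≤ C * T ^ (1 - η)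

/-- Q1 of MP_2a1a00_nt for the fixed twist `L`. -/
def TwistQ1 (L : Sel) : Prop := ∀ (k : ℕ) (d ℓ : Fin k → ℕ) (F : Fin k → Sel), 2 ≤ k → StrictMono d →
  (∀ j, 2 ≤ d j) → (∀ j, (F j).deg = (d j : ℝ)) → (∀ j, 1 ≤ ℓ j) → (∃ j, ℓ j = 1) →
  ∃ δ : ℝ, 0 < δ ∧ ∀ ε : ℝ, 0 < ε → ∃ C : ℝ, ∀ T : ℝ, 1 ≤ T →
    ‖∫ x in (1:ℝ)..T, (∏ j, (F j).err x ^ ℓ j) * ((‖L.val (1 / 2 + x * Complex.I)‖ ^ 2 : ℝ) : ℂ)‖ ≤
      C * T ^ (1 + sig d ℓ - δ + ε)

theorem val_cont (L : Sel) : Continuous fun x : ℝ => ‖L.val (1 / 2 + x * Complex.I)‖ ^ 2 := by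
  unfold Sel.val
  have h1 : Continuous fun x : ℝ => L.G (1 / 2 + x * Complex.I) :=
    L.diff.continuous.comp (by fun_prop)
  have h2 : Continuous fun x : ℝ => ((1 / 2 + x * Complex.I : ℂ) - 1) ^ L.m0 := by fun_prop
  have h3 : ∀ x : ℝ, ((1 / 2 + x * Complex.I : ℂ) - 1) ^ L.m0 ≠ 0 := by
    intro x
    apply pow_ne_zero
    intro h
    have := congrArg Complex.re h
    simp at this
    norm_num at this
  exact ((h1.div h2 h3).norm).pow 2

/-- **The conjecture fails for every admissible twist.** -/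
theorem not_twistQ1 (hA : TaskA) (hP : TaskP) (L : Sel) (P : Polynomial ℝ) (η : ℝ)
    (hL : MeanSq L P η) : ¬ TwistQ1 L := by
  intro h
  obtain ⟨hP0, hη', C₀, hC₀⟩ := hL
  -- reduce to `η ≤ 1`
  obtain ⟨η', hη'def⟩ : ∃ η' : ℝ, η' = min η 1 := ⟨_, rfl⟩
  have hη : 0 < η' := by rw [hη'def]; exact lt_min hη' one_pos
  have hη1 : η' ≤ 1 := by rw [hη'def]; exact min_le_right _ _
  have hC0 : ∃ C : ℝ, ∀ T : ℝ, 1 ≤ T →
      |(∫ x in (1:ℝ)..T, ‖L.val (1 / 2 + x * Complex.I)‖ ^ 2) - T * P.eval (Real.log T)| ≤ C * T ^ (1 - η') := by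
    have hC00 : 0 ≤ C₀ := by
      have := hC₀ 1 le_rfl
      simp only [Real.one_rpow, mul_one] at this
      exact (abs_nonneg _).trans this
    refine ⟨C₀, fun T hT => (hC₀ T hT).trans ?_⟩
    apply mul_le_mul_of_nonneg_left _ hC00
    apply Real.rpow_le_rpow_of_exponent_le hT
    have : η' ≤ η := by rw [hη'def]; exact min_le_left _ _
    linarith
  obtain ⟨F₁, F₂, a, g, κ, d₁, d₂, htκ, hκ0, hd1, hd12, hF1, hF2, h10, h20, ha1, ha2, hg1, hgs, hgt, hbig⟩ :=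
    data hA (max (1 / 2) (1 - η' / 4)) (max_lt (by norm_num) (by linarith))
  have hκ1 : 1 / 2 ≤ κ := (le_max_left _ _).trans htκ
  have hκ2 : 1 - η' / 4 ≤ κ := (le_max_right _ _).trans htκ
  have hram : ∀ (F : Sel) (a' : ℕ → ℝ), (∀ n, 1 ≤ n → F.a n = ((a' n : ℝ) : ℂ)) →
      ∀ ε : ℝ, 0 < ε → ∃ C : ℝ, ∀ n : ℕ, 1 ≤ n → |a' n| ≤ C * (n : ℝ) ^ ε := by
    intro F a' ha' ε hε
    obtain ⟨C, hC⟩ := F.ram ε hε
    refine ⟨C, fun n hn => ?_⟩
    have := hC n hn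
    rwa [ha' n hn, Complex.norm_real, Real.norm_eq_abs] at this
  have hcor := taskD' hP κ η' a g (fun x => ‖L.val (1 / 2 + x * Complex.I)‖ ^ 2) P hκ0 hη hη1 (by linarith) hg1 hgs hgt
    (hram F₁ a ha1) (hram F₂ (cv g a) ha2) (fun x => by positivity)
    (fun T _ => (val_cont L).intervalIntegrable _ _) hP0 hC0 hbig
  obtain ⟨δ, hδ, hε⟩ := h 2 ![d₁, d₂] ![1, 1] ![F₁, F₂] le_rfl
    (by
      intro i j hij
      fin_cases i <;> fin_cases j
      · exact absurd hij (lt_irrefl _)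
      · exact hd12
      · exact absurd hij (by decide)
      · exact absurd hij (lt_irrefl _))
    (by intro j; fin_cases j; exacts [hd1, by simp; omega])
    (by intro j; fin_cases j; exacts [hF1, hF2])
    (by intro j; fin_cases j <;> simp) ⟨0, rfl⟩
  obtain ⟨C, hC⟩ := hε δ hδ
  obtain ⟨T, hT, hTC⟩ := hcor |C|
  have h1 := hC T hT
  have h2 : ∀ x : ℝ, (∏ j, ((![F₁, F₂] : Fin 2 → Sel) j).err x ^ (![1, 1] : Fin 2 → ℕ) j) *
      ((‖L.val (1 / 2 + x * Complex.I)‖ ^ 2 : ℝ) : ℂ) =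
      ((EE a x * EE (cv g a) x * ‖L.val (1 / 2 + x * Complex.I)‖ ^ 2 : ℝ) : ℂ) := by
    intro x
    rw [Fin.prod_univ_two]
    simp only [Matrix.cons_val_zero, Matrix.cons_val_one, pow_one]
    rw [err_eq h10 ha1, err_eq h20 ha2]
    push_cast
    rfl
  simp_rw [h2] at h1
  rw [intervalIntegral.integral_ofReal, Complex.norm_real, Real.norm_eq_abs] at h1
  have h3 := sig_lt hd1 (hd1.trans hd12.le)
  have h4 : T ^ (1 + sig ![d₁, d₂] ![1, 1] - δ + δ) ≤ T ^ (1 + 2 * κ) :=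
    Real.rpow_le_rpow_of_exponent_le hT (by linarith)
  have h5 : (0 : ℝ) ≤ T ^ (1 + sig ![d₁, d₂] ![1, 1] - δ + δ) := by positivity
  have h6 : C * T ^ (1 + sig ![d₁, d₂] ![1, 1] - δ + δ) ≤ |C| * T ^ (1 + 2 * κ) :=
    (mul_le_mul_of_nonneg_right (le_abs_self C) h5).trans (mul_le_mul_of_nonneg_left h4 (abs_nonneg _))
  have h7 := le_abs_self (∫ x in (1:ℝ)..T, EE a x * EE (cv g a) x * ‖L.val (1 / 2 + x * Complex.I)‖ ^ 2)
  linarith

/-- the constant function `1` as an element of the Selberg class -/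
noncomputable def oneSel : Sel where
  a n := if n = 1 then 1 else 0
  m0 := 0
  G _ := 1
  r := 0
  Q := 1
  lam := Fin.elim0
  μ := Fin.elim0
  ω := 1
  b _ := 0
  one := by simp
  ram ε hε := ⟨1, fun n hn => by
    have h1 : (1 : ℝ) ≤ (n : ℝ) ^ ε := Real.one_le_rpow (by exact_mod_cast hn) hε.le
    split_ifs
    · simpa using h1
    · simp; positivity⟩
  diff := differentiable_const _
  order := ⟨1, 1, fun s => by
    rw [norm_one, one_mul]
    exact Real.one_le_exp (by positivity)⟩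
  cont s hs := by
    rw [pow_zero, one_mul]
    unfold LSeries
    rw [tsum_eq_single 1]
    · rw [LSeries.term_of_ne_zero one_ne_zero]
      simp
    · intro n hn
      rcases Nat.eq_zero_or_pos n with h0 | h0
      · subst h0; exact LSeries.term_zero _ _
      · rw [LSeries.term_of_ne_zero h0.ne', if_neg hn, zero_div]
  Qpos := one_pos
  lampos j := j.elim0
  mu_re j := j.elim0
  norm_omega := by simp
  fe s _ _ _ _ := by simp
  b_zero _ _ := rfl
  b_bound := ⟨0, by norm_num, 0, fun n _ => by simp⟩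
  euler s hs := by
    constructor
    · exact LSeriesSummable_zero
    · have e1 : LSeries (fun _ : ℕ => (0 : ℂ)) s = 0 := by
        unfold LSeries
        refine (tsum_congr fun n => ?_).trans tsum_zero
        unfold LSeries.term
        split_ifs <;> simp
      rw [e1, Complex.exp_zero]
      unfold LSeries
      rw [tsum_eq_single 1]
      · rw [LSeries.term_of_ne_zero one_ne_zero]
        simp
      · intro n hn
        rcases Nat.eq_zero_or_pos n with h0 | h0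
        · subst h0; exact LSeries.term_zero _ _
        · rw [LSeries.term_of_ne_zero h0.ne', if_neg hn, zero_div]

theorem oneSel_meanSq : MeanSq oneSel 1 1 := by
  refine ⟨one_ne_zero, one_pos, 1, fun T hT => ?_⟩
  have h1 : ∀ x : ℝ, ‖oneSel.val (1 / 2 + x * Complex.I)‖ ^ 2 = 1 := by
    intro x
    unfold Sel.val oneSel
    simp
  simp_rw [h1]
  simp

end Pool.Agent.H13R3.EM
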